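import Mathlib

/-! Powers of numbers in the closed right half-plane. -/

set_option autoImplicit false

namespace Pool.Agent.E8helper81.PK

open Complex

lemma cpow_re_eq (α : ℝ) (w : ℂ) (hw : w ≠ 0) :
    (w ^ (α : ℂ)).re = ‖w‖ ^ α * Real.cos (α * w.arg) := by
  rw [Complex.cpow_def_of_ne_zero hw, Complex.exp_re]
  have h1 : (Complex.log w * (α : ℂ)).re = Real.log ‖w‖ * α := by
    simp [Complex.mul_re, Complex.log_re]
  have h2 : (Complex.log w * (α : ℂ)).im = α * w.arg := by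
    simp [Complex.mul_im, Complex.log_im, mul_comm]
  rw [h1, h2, Real.rpow_def_of_pos (norm_pos_iff.2 hw)]

lemma cpow_re_ge (α : ℝ) (h0 : 0 ≤ α) (h1 : α ≤ 1) (w : ℂ) (hw : w ≠ 0) (hre : 0 ≤ w.re) :
    ‖w‖ ^ α * Real.cos (α * (Real.pi / 2)) ≤ (w ^ (α : ℂ)).re := by
  rw [cpow_re_eq α w hw]
  refine mul_le_mul_of_nonneg_left ?_ (by positivity)
  have harg : |w.arg| ≤ Real.pi / 2 := Complex.abs_arg_le_pi_div_two_iff.2 hre
  rw [← Real.cos_abs (α * w.arg), abs_mul, abs_of_nonneg h0]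
  refine Real.cos_le_cos_of_nonneg_of_le_pi (by positivity) ?_ (by gcongr)
  have := Real.pi_pos
  nlinarith

lemma cpow_re_nonneg (α : ℝ) (h0 : 0 ≤ α) (h1 : α ≤ 1) (w : ℂ) (hre : 0 ≤ w.re) :
    0 ≤ (w ^ (α : ℂ)).re := by
  rcases eq_or_ne w 0 with rfl | hw
  · rcases eq_or_ne α 0 with rfl | hα
    · simp
    · rw [Complex.zero_cpow (by exact_mod_cast hα)]; simp
  · refine le_trans ?_ (cpow_re_ge α h0 h1 w hw hre)
    refine mul_nonneg (by positivity) (Real.cos_nonneg_of_mem_Icc ⟨?_, ?_⟩)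
    · have := Real.pi_pos
      nlinarith
    · have := Real.pi_pos
      nlinarith

lemma cos_pos' (α : ℝ) (h0 : 0 < α) (h1 : α < 1) : 0 < Real.cos (α * (Real.pi / 2)) := by
  have := Real.pi_pos
  exact Real.cos_pos_of_mem_Ioo ⟨by nlinarith, by nlinarith⟩

/-- `w` and `w ^ α` make an angle at most `π / 2`. -/
lemma re_mul_conj_nonneg (α : ℝ) (h0 : 0 < α) (h1 : α < 1) (w : ℂ) (hre : 0 ≤ w.re) :
    0 ≤ (w * (starRingEnd ℂ) (w ^ (α : ℂ))).re := by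
  rcases eq_or_ne w 0 with rfl | hw
  · simp
  have h2 : w = w ^ ((1 - α : ℝ) : ℂ) * w ^ (α : ℂ) := by
    rw [← Complex.cpow_add _ _ hw]
    have : (((1 - α : ℝ) : ℂ) + (α : ℂ)) = 1 := by push_cast; ring
    rw [this, Complex.cpow_one]
  have h3 : w * (starRingEnd ℂ) (w ^ (α : ℂ)) =
      w ^ ((1 - α : ℝ) : ℂ) * ((Complex.normSq (w ^ (α : ℂ)) : ℝ) : ℂ) := by
    conv_lhs => rw [h2]
    rw [mul_assoc, ← h2, Complex.mul_conj]
  rw [h3, Complex.re_mul_ofReal]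
  exact mul_nonneg (cpow_re_nonneg (1 - α) (by linarith) (by linarith) w hre)
    (Complex.normSq_nonneg _)

/-- two numbers with angle at most `π / 2`. -/
lemma norm_add_ge (a b : ℂ) (h : 0 ≤ (a * (starRingEnd ℂ) b).re) :
    ‖a‖ ≤ ‖a + b‖ ∧ ‖b‖ ≤ ‖a + b‖ := by
  have h1 : ‖a + b‖ ^ 2 = ‖a‖ ^ 2 + ‖b‖ ^ 2 + 2 * (a * (starRingEnd ℂ) b).re := by
    rw [← Complex.normSq_eq_norm_sq, ← Complex.normSq_eq_norm_sq, ← Complex.normSq_eq_norm_sq,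
      Complex.normSq_add]
  constructor
  · refine le_of_sq_le_sq ?_ (norm_nonneg _)
    nlinarith [sq_nonneg ‖b‖]
  · refine le_of_sq_le_sq ?_ (norm_nonneg _)
    nlinarith [sq_nonneg ‖a‖]

/-- The block `w / m + w ^ α`. -/
noncomputable def blk (α m : ℝ) (w : ℂ) : ℂ := w / (m : ℂ) + w ^ (α : ℂ)

lemma blk_norm_ge (α m : ℝ) (h0 : 0 < α) (h1 : α < 1) (hm : 0 < m) (w : ℂ) (hre : 0 ≤ w.re) :
    ‖w‖ / m ≤ ‖blk α m w‖ ∧ ‖w‖ ^ α ≤ ‖blk α m w‖ := by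
  have h2 : 0 ≤ (w / (m : ℂ) * (starRingEnd ℂ) (w ^ (α : ℂ))).re := by
    have h3 : w / (m : ℂ) * (starRingEnd ℂ) (w ^ (α : ℂ)) =
        w * (starRingEnd ℂ) (w ^ (α : ℂ)) / ((m : ℝ) : ℂ) := by ring
    rw [h3, Complex.div_ofReal_re]
    exact div_nonneg (re_mul_conj_nonneg α h0 h1 w hre) hm.le
  obtain ⟨h3, h4⟩ := norm_add_ge _ _ h2
  constructor
  · have : ‖w / (m : ℂ)‖ = ‖w‖ / m := by
      rw [norm_div, Complex.norm_real, Real.norm_of_nonneg hm.le]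
    rw [← this]; exact h3
  · have : ‖w ^ (α : ℂ)‖ = ‖w‖ ^ α := Complex.norm_cpow_real w α
    rw [← this]; exact h4

lemma blk_norm_le (α m : ℝ) (hm : 0 < m) (w : ℂ) :
    ‖blk α m w‖ ≤ ‖w‖ / m + ‖w‖ ^ α := by
  refine (norm_add_le _ _).trans (le_of_eq ?_)
  rw [norm_div, Complex.norm_real, Real.norm_of_nonneg hm.le, Complex.norm_cpow_real w α]

lemma blk_re_ge (α m : ℝ) (h0 : 0 < α) (h1 : α < 1) (hm : 0 < m) (w : ℂ) (hw : w ≠ 0)
    (hre : 0 ≤ w.re) : ‖w‖ ^ α * Real.cos (α * (Real.pi / 2)) ≤ (blk α m w).re := by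
  unfold blk
  rw [Complex.add_re, Complex.div_ofReal_re]
  have := cpow_re_ge α h0.le h1.le w hw hre
  have h2 : 0 ≤ w.re / m := div_nonneg hre hm.le
  linarith

lemma blk_ne_zero (α m : ℝ) (h0 : 0 < α) (h1 : α < 1) (hm : 0 < m) (w : ℂ) (hw : w ≠ 0)
    (hre : 0 ≤ w.re) : blk α m w ≠ 0 := by
  intro h
  have h2 := (blk_norm_ge α m h0 h1 hm w hre).1
  rw [h, norm_zero] at h2
  have : 0 < ‖w‖ / m := div_pos (norm_pos_iff.2 hw) hm
  linarith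

lemma inv_re (x : ℂ) : (x⁻¹).re = x.re / ‖x‖ ^ 2 := by
  rw [Complex.inv_re, Complex.normSq_eq_norm_sq]

lemma blk_inv_re_nonneg (α m : ℝ) (h0 : 0 < α) (h1 : α < 1) (hm : 0 < m) (w : ℂ) (hw : w ≠ 0)
    (hre : 0 ≤ w.re) : 0 ≤ ((blk α m w)⁻¹).re := by
  rw [inv_re]
  refine div_nonneg ?_ (by positivity)
  refine le_trans ?_ (blk_re_ge α m h0 h1 hm w hw hre)
  exact mul_nonneg (by positivity) (cos_pos' α h0 h1).le

/-- lower bound of the real part of `1 / blk` near `w = 0`: here `m = s ^ (1 - α)`. -/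
lemma blk_inv_re_ge (α s L : ℝ) (h0 : 0 < α) (h1 : α < 1) (hs : 0 < s) (hL : 1 ≤ L) (w : ℂ)
    (hw : w ≠ 0) (hre : 0 ≤ w.re) (hwL : ‖w‖ ≤ L * s) :
    Real.cos (α * (Real.pi / 2)) / (1 + L) ^ 2 * ‖w‖ ^ (-α) ≤
      ((blk α (s ^ (1 - α)) w)⁻¹).re := by
  have hm : 0 < s ^ (1 - α) := Real.rpow_pos_of_pos hs _
  have hw0 : 0 < ‖w‖ := norm_pos_iff.2 hw
  have hwα : 0 < ‖w‖ ^ α := Real.rpow_pos_of_pos hw0 _
  have h2 : ‖w‖ / s ^ (1 - α) ≤ L * ‖w‖ ^ α := by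
    have h3 : ‖w‖ = ‖w‖ ^ (1 - α) * ‖w‖ ^ α := by
      rw [← Real.rpow_add hw0]; simp
    have h4 : ‖w‖ ^ (1 - α) ≤ L * s ^ (1 - α) := by
      calc ‖w‖ ^ (1 - α) ≤ (L * s) ^ (1 - α) :=
            Real.rpow_le_rpow hw0.le hwL (by linarith)
        _ = L ^ (1 - α) * s ^ (1 - α) := Real.mul_rpow (by linarith) hs.le
        _ ≤ L ^ (1 : ℝ) * s ^ (1 - α) := by
            refine mul_le_mul_of_nonneg_right ?_ hm.le
            exact Real.rpow_le_rpow_of_exponent_le hL (by linarith)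
        _ = L * s ^ (1 - α) := by rw [Real.rpow_one]
    rw [div_le_iff₀ hm]
    calc ‖w‖ = ‖w‖ ^ (1 - α) * ‖w‖ ^ α := h3
      _ ≤ (L * s ^ (1 - α)) * ‖w‖ ^ α := mul_le_mul_of_nonneg_right h4 hwα.le
      _ = L * ‖w‖ ^ α * s ^ (1 - α) := by ring
  have h5 : ‖blk α (s ^ (1 - α)) w‖ ≤ (1 + L) * ‖w‖ ^ α := by
    have := blk_norm_le α _ hm w
    linarith
  have h6 := blk_re_ge α _ h0 h1 hm w hw hre
  have h7 : 0 < ‖blk α (s ^ (1 - α)) w‖ :=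
    norm_pos_iff.2 (blk_ne_zero α _ h0 h1 hm w hw hre)
  have hc := cos_pos' α h0 h1
  rw [inv_re, le_div_iff₀ (by positivity)]
  refine le_trans ?_ h6
  have h8 : ‖blk α (s ^ (1 - α)) w‖ ^ 2 ≤ ((1 + L) * ‖w‖ ^ α) ^ 2 := by gcongr
  calc Real.cos (α * (Real.pi / 2)) / (1 + L) ^ 2 * ‖w‖ ^ (-α) * ‖blk α (s ^ (1 - α)) w‖ ^ 2
      ≤ Real.cos (α * (Real.pi / 2)) / (1 + L) ^ 2 * ‖w‖ ^ (-α) * ((1 + L) * ‖w‖ ^ α) ^ 2 := by
        gcongr
    _ = ‖w‖ ^ α * Real.cos (α * (Real.pi / 2)) := by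
        rw [Real.rpow_neg hw0.le]
        field_simp

/-- Difference of powers. -/
lemma cpow_sub_le (α : ℝ) (h0 : 0 < α) (h1 : α < 1) (a b : ℂ) (ha : 0 ≤ a.re) (hb : 0 ≤ b.re)
    (ha0 : a ≠ 0) (hab : ‖a - b‖ ≤ ‖a‖ / 2) :
    ‖a ^ (α : ℂ) - b ^ (α : ℂ)‖ ≤ 2 * ‖a‖ ^ (α - 1) * ‖a - b‖ := by
  have hna : 0 < ‖a‖ := norm_pos_iff.2 ha0
  have hseg : ∀ x ∈ segment ℝ b a, 0 ≤ x.re ∧ ‖a‖ / 2 ≤ ‖x‖ := by
    intro x hx
    obtain ⟨u, v, hu, hv, huv, rfl⟩ := hx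
    constructor
    · simp only [Complex.add_re, Complex.real_smul, Complex.mul_re, Complex.ofReal_re,
        Complex.ofReal_im, zero_mul, sub_zero]
      positivity
    · have h2 : a - (u • b + v • a) = u • (a - b) := by
        calc a - (u • b + v • a) = (u + v) • a - (u • b + v • a) := by rw [huv, one_smul]
          _ = u • (a - b) := by rw [add_smul, smul_sub]; abel
      have h3 : ‖a - (u • b + v • a)‖ ≤ ‖a‖ / 2 := by
        rw [h2, norm_smul, Real.norm_of_nonneg hu]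
        have hu1 : u ≤ 1 := by linarith
        calc u * ‖a - b‖ ≤ 1 * ‖a - b‖ := mul_le_mul_of_nonneg_right hu1 (norm_nonneg _)
          _ ≤ ‖a‖ / 2 := by rw [one_mul]; exact hab
      have h4 := norm_sub_norm_le a (u • b + v • a)
      linarith
  have hslit : ∀ x ∈ segment ℝ b a, x ∈ Complex.slitPlane := by
    intro x hx
    obtain ⟨h2, h3⟩ := hseg x hx
    rw [Complex.mem_slitPlane_iff]
    by_contra hcon
    push Not at hcon
    have hre : x.re = 0 := le_antisymm hcon.1 h2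
    have : x = 0 := Complex.ext hre hcon.2
    rw [this, norm_zero] at h3
    linarith
  have hder : ∀ x ∈ segment ℝ b a, HasDerivWithinAt (fun x : ℂ => x ^ (α : ℂ))
      ((α : ℂ) * x ^ ((α : ℂ) - 1)) (segment ℝ b a) x := by
    intro x hx
    exact (hasStrictDerivAt_cpow_const (hslit x hx)).hasDerivAt.hasDerivWithinAt
  have hbound : ∀ x ∈ segment ℝ b a, ‖(α : ℂ) * x ^ ((α : ℂ) - 1)‖ ≤ 2 * ‖a‖ ^ (α - 1) := by
    intro x hx
    obtain ⟨h2, h3⟩ := hseg x hx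
    have h4 : ((α : ℂ) - 1) = ((α - 1 : ℝ) : ℂ) := by push_cast; ring
    rw [norm_mul, h4, Complex.norm_cpow_real, Complex.norm_real, Real.norm_of_nonneg h0.le]
    have h5 : ‖x‖ ^ (α - 1) ≤ (‖a‖ / 2) ^ (α - 1) :=
      Real.rpow_le_rpow_of_nonpos (by positivity) h3 (by linarith)
    have h6 : (‖a‖ / 2) ^ (α - 1) = ‖a‖ ^ (α - 1) * 2 ^ (1 - α) := by
      rw [Real.div_rpow hna.le (by norm_num), div_eq_mul_inv, ← Real.rpow_neg (by norm_num)]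
      congr 2
      ring
    have h7 : (2 : ℝ) ^ (1 - α) ≤ 2 := by
      calc (2 : ℝ) ^ (1 - α) ≤ 2 ^ (1 : ℝ) :=
            Real.rpow_le_rpow_of_exponent_le (by norm_num) (by linarith)
        _ = 2 := Real.rpow_one 2
    have h8 : 0 < ‖a‖ ^ (α - 1) := Real.rpow_pos_of_pos hna _
    calc α * ‖x‖ ^ (α - 1) ≤ 1 * (‖a‖ ^ (α - 1) * 2 ^ (1 - α)) := by
          refine mul_le_mul h1.le (h5.trans h6.le) (by positivity) (by norm_num)
      _ ≤ 2 * ‖a‖ ^ (α - 1) := by nlinarith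
  have := Convex.norm_image_sub_le_of_norm_hasDerivWithin_le hder hbound (convex_segment b a)
    (left_mem_segment ℝ b a) (right_mem_segment ℝ b a)
  exact this

end Pool.Agent.E8helper81.PK
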