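import Mathlib
import Pool.Agent.E8helper81.PK.Block

/-! The analytic function `H` attached to a configuration of points on the circle. -/

set_option autoImplicit false

namespace Pool.Agent.E8helper81.PK

open Complex Filter Topology Metric Set

/-- A configuration of points `ζ j → 1` of the unit circle, with scales `s j`. -/
structure Config (α : ℝ) (ι : Type) where
  ζ : ι → ℂ
  s : ι → ℝ
  norm_ζ : ∀ j, ‖ζ j‖ = 1
  s_pos : ∀ j, 0 < s j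
  close_one : ∀ j, ‖1 - ζ j‖ ≤ 4 * s j ^ α
  far_one : ∀ j z, ‖z - ζ j‖ ≤ 96 * s j → s j ^ α ≤ 2 * ‖1 - z‖
  uniq : ∀ z j k, ‖z - ζ j‖ < 64 * s j → ‖z - ζ k‖ < 64 * s k → j = k
  mass : Summable (fun j => s j ^ (1 - α))
  mass_le : ∑' j, s j ^ (1 - α) ≤ 1 / 4
  far : ∀ z : ℂ, ‖z‖ ≤ 1 →
    Summable (fun j => if 64 * s j ≤ ‖z - ζ j‖ then s j / ‖z - ζ j‖ else 0)
  far_le : ∀ z : ℂ, ‖z‖ ≤ 1 →
    ∑' j, (if 64 * s j ≤ ‖z - ζ j‖ then s j / ‖z - ζ j‖ else 0) ≤ 1 / 32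
  lim : Tendsto ζ cofinite (𝓝 1)

variable {α : ℝ} {ι : Type} (c : Config α ι)

namespace Config

/-- the set of the points of the configuration and their limit. -/
def E : Set ℂ := insert 1 (range c.ζ)

lemma isCompact_E : IsCompact c.E := c.lim.isCompact_insert_range_of_cofinite

lemma one_mem_E : (1 : ℂ) ∈ c.E := mem_insert _ _

lemma ζ_mem_E (j : ι) : c.ζ j ∈ c.E := mem_insert_of_mem _ (mem_range_self j)

lemma E_sub : c.E ⊆ sphere (0 : ℂ) 1 := by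
  intro x hx
  rcases hx with rfl | ⟨j, rfl⟩
  · simp
  · simpa using c.norm_ζ j

/-- `1 - conj ζ z`. -/
noncomputable def w (j : ι) (z : ℂ) : ℂ := 1 - (starRingEnd ℂ) (c.ζ j) * z

lemma norm_w (j : ι) (z : ℂ) : ‖c.w j z‖ = ‖z - c.ζ j‖ := by
  have h1 : (starRingEnd ℂ) (c.ζ j) * c.ζ j = 1 := by
    rw [mul_comm, Complex.mul_conj, Complex.normSq_eq_norm_sq, c.norm_ζ]; norm_num
  have h2 : c.w j z = (starRingEnd ℂ) (c.ζ j) * (c.ζ j - z) := by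
    rw [w, mul_sub, h1]
  rw [h2, norm_mul, RCLike.norm_conj, c.norm_ζ, one_mul, norm_sub_rev]

lemma w_re (j : ι) (z : ℂ) (hz : ‖z‖ ≤ 1) : 0 ≤ (c.w j z).re := by
  have h1 : ((starRingEnd ℂ) (c.ζ j) * z).re ≤ 1 := by
    refine (Complex.re_le_norm _).trans ?_
    rw [norm_mul, RCLike.norm_conj, c.norm_ζ, one_mul]; exact hz
  rw [w, Complex.sub_re, Complex.one_re]
  linarith

lemma w_ne (j : ι) (z : ℂ) (hz : z ≠ c.ζ j) : c.w j z ≠ 0 := by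
  rw [← norm_pos_iff, c.norm_w, norm_pos_iff, sub_ne_zero]; exact hz

/-- masses -/
noncomputable def m (j : ι) : ℝ := c.s j ^ (1 - α)

lemma m_pos (j : ι) : 0 < c.m j := Real.rpow_pos_of_pos (c.s_pos j) _

lemma summable_m : Summable (fun j => c.m j) := c.mass

lemma tsum_m_le : ∑' j, c.m j ≤ 1 / 4 := c.mass_le

/-- the terms -/
noncomputable def t (j : ι) (z : ℂ) : ℂ := (blk α (c.m j) (c.w j z))⁻¹

/-- the function -/
noncomputable def H (z : ℂ) : ℂ := (1 - z)⁻¹ + ∑' j, c.t j z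

variable (h0 : 0 < α) (h1 : α < 1)
include h0 h1

lemma norm_t_le (j : ι) (z : ℂ) (hz : ‖z‖ ≤ 1) (hne : z ≠ c.ζ j) :
    ‖c.t j z‖ ≤ c.m j / ‖z - c.ζ j‖ ∧ ‖c.t j z‖ ≤ ‖z - c.ζ j‖ ^ (-α) := by
  have h2 := blk_norm_ge α (c.m j) h0 h1 (c.m_pos j) (c.w j z) (c.w_re j z hz)
  rw [c.norm_w] at h2
  have hw : 0 < ‖z - c.ζ j‖ := norm_pos_iff.2 (sub_ne_zero.2 hne)
  rw [t, norm_inv]
  constructor
  · have h3 : c.m j / ‖z - c.ζ j‖ = (‖z - c.ζ j‖ / c.m j)⁻¹ := by rw [inv_div]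
    rw [h3]
    exact inv_anti₀ (div_pos hw (c.m_pos j)) h2.1
  · rw [Real.rpow_neg hw.le]
    exact inv_anti₀ (Real.rpow_pos_of_pos hw _) h2.2

lemma t_re_nonneg (j : ι) (z : ℂ) (hz : ‖z‖ ≤ 1) (hne : z ≠ c.ζ j) : 0 ≤ (c.t j z).re :=
  blk_inv_re_nonneg α _ h0 h1 (c.m_pos j) _ (c.w_ne j z hne) (c.w_re j z hz)

lemma t_re_ge (j : ι) (z : ℂ) (hz : ‖z‖ ≤ 1) (hne : z ≠ c.ζ j) (hn : ‖z - c.ζ j‖ ≤ 96 * c.s j) :
    Real.cos (α * (Real.pi / 2)) / (1 + 96) ^ 2 * ‖z - c.ζ j‖ ^ (-α) ≤ (c.t j z).re := by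
  have := blk_inv_re_ge α (c.s j) 96 h0 h1 (c.s_pos j) (by norm_num) (c.w j z) (c.w_ne j z hne)
    (c.w_re j z hz) (by rw [c.norm_w]; exact hn)
  rw [c.norm_w] at this
  exact this

omit h0 h1 in
lemma mem_ne {z : ℂ} (hE : z ∉ c.E) (j : ι) : z ≠ c.ζ j := by
  rintro rfl
  exact hE (c.ζ_mem_E j)

omit h0 h1 in
lemma mem_ne_one {z : ℂ} (hE : z ∉ c.E) : z ≠ 1 := by
  rintro rfl
  exact hE c.one_mem_E

omit h0 h1 in
lemma exists_delta {z : ℂ} (hE : z ∉ c.E) : ∃ δ : ℝ, 0 < δ ∧ ∀ e ∈ c.E, δ ≤ ‖z - e‖ := by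
  refine ⟨Metric.infDist z c.E, ?_, ?_⟩
  · exact (c.isCompact_E.isClosed.notMem_iff_infDist_pos ⟨1, c.one_mem_E⟩).1 hE
  · intro e he
    rw [← dist_eq_norm]
    exact Metric.infDist_le_dist_of_mem he

lemma summable_t (z : ℂ) (hz : ‖z‖ ≤ 1) (hE : z ∉ c.E) : Summable (fun j => ‖c.t j z‖) := by
  obtain ⟨δ, hδ, hd⟩ := c.exists_delta hE
  refine Summable.of_nonneg_of_le (fun j => norm_nonneg _) (fun j => ?_) (c.mass.mul_left δ⁻¹)
  refine ((c.norm_t_le h0 h1 j z hz (c.mem_ne hE j)).1).trans ?_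
  rw [div_eq_mul_inv, mul_comm]
  refine mul_le_mul_of_nonneg_right ?_ (c.m_pos j).le
  exact inv_anti₀ hδ (hd _ (c.ζ_mem_E j))

lemma H_re_ge (z : ℂ) (hz : ‖z‖ ≤ 1) (hE : z ∉ c.E) :
    1 / 2 ≤ (c.H z).re ∧ ∀ j, (c.t j z).re ≤ (c.H z).re := by
  have hs : Summable (fun j => c.t j z) := (c.summable_t h0 h1 z hz hE).of_norm
  have hre : (∑' j, c.t j z).re = ∑' j, (c.t j z).re := Complex.re_tsum hs
  have hsr : Summable (fun j => (c.t j z).re) := (Complex.hasSum_re hs.hasSum).summable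
  have hnn : ∀ j, 0 ≤ (c.t j z).re := fun j => c.t_re_nonneg h0 h1 j z hz (c.mem_ne hE j)
  have h2 : 1 / 2 ≤ ((1 - z)⁻¹).re := by
    have hne : (1 : ℂ) - z ≠ 0 := sub_ne_zero.2 (Ne.symm (c.mem_ne_one hE))
    have hpos : 0 < Complex.normSq (1 - z) := Complex.normSq_pos.2 hne
    rw [Complex.inv_re, le_div_iff₀ hpos]
    have h3 : Complex.normSq z ≤ 1 := by
      rw [Complex.normSq_eq_norm_sq]
      have := norm_nonneg z
      nlinarith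
    rw [Complex.normSq_apply] at h3
    rw [Complex.normSq_apply]
    simp only [Complex.sub_re, Complex.one_re, Complex.sub_im, Complex.one_im]
    nlinarith
  have h3 : (c.H z).re = ((1 - z)⁻¹).re + ∑' j, (c.t j z).re := by
    rw [H, Complex.add_re, hre]
  constructor
  · rw [h3]
    have : 0 ≤ ∑' j, (c.t j z).re := tsum_nonneg hnn
    linarith
  · intro j
    rw [h3]
    have := hsr.le_tsum j (fun i _ => hnn i)
    linarith

/-- the constant in the lower bounds -/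
noncomputable def κ (α : ℝ) : ℝ := Real.cos (α * (Real.pi / 2)) / (1 + 96) ^ 2

omit c in
lemma κ_pos : 0 < κ α := div_pos (cos_pos' α h0 h1) (by norm_num)

/-- the second constant -/
noncomputable def κ' (α : ℝ) : ℝ := min (1 / 2) (κ α * 64 ^ (-α) / 2)

omit c in
lemma κ'_pos : 0 < κ' α := by
  have := κ_pos h0 h1
  unfold κ'
  refine lt_min (by norm_num) ?_
  positivity

omit h0 h1 in
lemma far_sum_bound (z : ℂ) (j : ι)
    (hf : 64 * c.s j ≤ ‖z - c.ζ j‖) (hE : z ∉ c.E) :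
    c.m j / ‖z - c.ζ j‖ * ‖1 - z‖ ≤
      4 * (if 64 * c.s j ≤ ‖z - c.ζ j‖ then c.s j / ‖z - c.ζ j‖ else 0) + c.m j := by
  rw [if_pos hf]
  have hw : 0 < ‖z - c.ζ j‖ := norm_pos_iff.2 (sub_ne_zero.2 (c.mem_ne hE j))
  have h3 : ‖1 - z‖ ≤ 4 * c.s j ^ α + ‖z - c.ζ j‖ := by
    have h4 : (1 : ℂ) - z = (1 - c.ζ j) - (z - c.ζ j) := by ring
    rw [h4]
    refine (norm_sub_le _ _).trans ?_
    have := c.close_one j
    linarith
  have h5 : c.m j * c.s j ^ α = c.s j := by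
    rw [m, ← Real.rpow_add (c.s_pos j)]; simp
  have hm := c.m_pos j
  calc c.m j / ‖z - c.ζ j‖ * ‖1 - z‖
      ≤ c.m j / ‖z - c.ζ j‖ * (4 * c.s j ^ α + ‖z - c.ζ j‖) := by gcongr
    _ = 4 * ((c.m j * c.s j ^ α) / ‖z - c.ζ j‖) + c.m j := by field_simp
    _ = 4 * (c.s j / ‖z - c.ζ j‖) + c.m j := by rw [h5]

lemma H_ge (z : ℂ) (hz : ‖z‖ ≤ 1) (hE : z ∉ c.E) : κ' α ≤ ‖c.H z‖ * ‖1 - z‖ := by
  have hone : 0 < ‖1 - z‖ := norm_pos_iff.2 (sub_ne_zero.2 (Ne.symm (c.mem_ne_one hE)))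
  by_cases hnear : ∃ k, ‖z - c.ζ k‖ < 64 * c.s k
  · obtain ⟨k, hk⟩ := hnear
    have hw : 0 < ‖z - c.ζ k‖ := norm_pos_iff.2 (sub_ne_zero.2 (c.mem_ne hE k))
    have hsk := c.s_pos k
    have h96 : ‖z - c.ζ k‖ ≤ 96 * c.s k := by linarith
    have h2 := c.t_re_ge h0 h1 k z hz (c.mem_ne hE k) h96
    have h3 := (c.H_re_ge h0 h1 z hz hE).2 k
    have h4 : κ α * ‖z - c.ζ k‖ ^ (-α) ≤ ‖c.H z‖ :=
      (h2.trans h3).trans (Complex.re_le_norm _)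
    have h5 : (64 * c.s k) ^ (-α) ≤ ‖z - c.ζ k‖ ^ (-α) :=
      Real.rpow_le_rpow_of_nonpos hw hk.le (by linarith)
    have h6 : (64 * c.s k) ^ (-α) = 64 ^ (-α) * (c.s k ^ α)⁻¹ := by
      rw [Real.mul_rpow (by norm_num) hsk.le, Real.rpow_neg hsk.le]
    have hsα : 0 < c.s k ^ α := Real.rpow_pos_of_pos hsk _
    have h7 := c.far_one k z h96
    have hκ := κ_pos h0 h1
    have h8 : κ α * 64 ^ (-α) * (c.s k ^ α)⁻¹ ≤ ‖c.H z‖ := by
      calc κ α * 64 ^ (-α) * (c.s k ^ α)⁻¹ = κ α * (64 * c.s k) ^ (-α) := by rw [h6]; ring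
        _ ≤ κ α * ‖z - c.ζ k‖ ^ (-α) := by gcongr
        _ ≤ _ := h4
    have h9 : κ α * 64 ^ (-α) / 2 ≤ κ α * 64 ^ (-α) * (c.s k ^ α)⁻¹ * ‖1 - z‖ := by
      have h10 : (1 : ℝ) / 2 ≤ (c.s k ^ α)⁻¹ * ‖1 - z‖ := by
        rw [inv_mul_eq_div, le_div_iff₀ hsα]
        linarith
      have h11 : 0 < κ α * (64 : ℝ) ^ (-α) := by positivity
      calc κ α * 64 ^ (-α) / 2 = κ α * 64 ^ (-α) * (1 / 2) := by ring
        _ ≤ κ α * 64 ^ (-α) * ((c.s k ^ α)⁻¹ * ‖1 - z‖) := by gcongr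
        _ = _ := by ring
    refine (min_le_right _ _).trans (h9.trans ?_)
    gcongr
  · push Not at hnear
    have hst := c.summable_t h0 h1 z hz hE
    have hsum : Summable (fun j => 4 * (if 64 * c.s j ≤ ‖z - c.ζ j‖ then
        c.s j / ‖z - c.ζ j‖ else 0) + c.m j) := ((c.far z hz).mul_left 4).add c.summable_m
    have h2 : (∑' j, ‖c.t j z‖) * ‖1 - z‖ ≤ 3 / 8 := by
      rw [← tsum_mul_right]
      have h3 : ∑' j, ‖c.t j z‖ * ‖1 - z‖ ≤ ∑' j, (4 * (if 64 * c.s j ≤ ‖z - c.ζ j‖ then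
        c.s j / ‖z - c.ζ j‖ else 0) + c.m j) := by
        refine Summable.tsum_le_tsum (fun j => ?_) (hst.mul_right _) hsum
        refine le_trans ?_ (c.far_sum_bound z j (hnear j) hE)
        exact mul_le_mul_of_nonneg_right (c.norm_t_le h0 h1 j z hz (c.mem_ne hE j)).1 hone.le
      refine h3.trans ?_
      rw [((c.far z hz).mul_left 4).tsum_add c.summable_m, tsum_mul_left]
      have := c.far_le z hz
      have := c.tsum_m_le
      linarith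
    have h4 : ‖(1 - z)⁻¹‖ - ∑' j, ‖c.t j z‖ ≤ ‖c.H z‖ := by
      have h5 : ‖∑' j, c.t j z‖ ≤ ∑' j, ‖c.t j z‖ := norm_tsum_le_tsum_norm hst
      have h6 := norm_sub_norm_le ((1 - z)⁻¹) (-∑' j, c.t j z)
      rw [norm_neg, sub_neg_eq_add] at h6
      unfold H
      linarith
    have h5 : ‖(1 - z)⁻¹‖ * ‖1 - z‖ = 1 := by
      rw [norm_inv, inv_mul_cancel₀ hone.ne']
    have h6 : (‖(1 - z)⁻¹‖ - ∑' j, ‖c.t j z‖) * ‖1 - z‖ ≤ ‖c.H z‖ * ‖1 - z‖ := by gcongr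
    rw [sub_mul, h5] at h6
    refine (min_le_left _ _).trans ?_
    linarith

/-- Lower bound in terms of the distance to `E`. -/
lemma H_ge_dist : ∃ K : ℝ, 0 < K ∧ ∀ z : ℂ, ‖z‖ ≤ 1 → z ∉ c.E → ∀ e ∈ c.E,
    1 ≤ K * ‖z - e‖ ^ α * ‖c.H z‖ := by
  have hκ := κ_pos h0 h1
  have hκ' := κ'_pos h0 h1
  refine ⟨(κ α)⁻¹ + 6 * (κ' α)⁻¹, by positivity, ?_⟩
  intro z hz hE e he
  have hone : 0 < ‖1 - z‖ := norm_pos_iff.2 (sub_ne_zero.2 (Ne.symm (c.mem_ne_one hE)))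
  have hge := c.H_ge h0 h1 z hz hE
  have hHn : 0 ≤ ‖c.H z‖ := norm_nonneg _
  -- if `‖1 - z‖ ≤ 6 ‖z - e‖ ^ α`
  have key : ‖1 - z‖ ≤ 6 * ‖z - e‖ ^ α → 1 ≤ ((κ α)⁻¹ + 6 * (κ' α)⁻¹) * ‖z - e‖ ^ α * ‖c.H z‖ := by
    intro h
    have h2 : κ' α ≤ ‖c.H z‖ * (6 * ‖z - e‖ ^ α) := hge.trans (by gcongr)
    have h3 : 1 ≤ (κ' α)⁻¹ * (‖c.H z‖ * (6 * ‖z - e‖ ^ α)) := by
      rw [inv_mul_eq_div, le_div_iff₀ hκ']; linarith
    have h4 : 0 ≤ (κ α)⁻¹ * ‖z - e‖ ^ α * ‖c.H z‖ := by positivity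
    nlinarith
  have hle2 : ∀ x : ℝ, 0 ≤ x → x ≤ 2 → x ≤ 2 * x ^ α := by
    intro x hx0 hx2
    rcases eq_or_lt_of_le hx0 with rfl | hx
    · rw [Real.zero_rpow h0.ne']; norm_num
    · have h3 : x = x ^ (1 - α) * x ^ α := by rw [← Real.rpow_add hx]; simp
      have h4 : x ^ (1 - α) ≤ 2 := by
        calc x ^ (1 - α) ≤ 2 ^ (1 - α) := Real.rpow_le_rpow hx0 hx2 (by linarith)
          _ ≤ 2 ^ (1 : ℝ) := Real.rpow_le_rpow_of_exponent_le (by norm_num) (by linarith)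
          _ = 2 := Real.rpow_one 2
      calc x = x ^ (1 - α) * x ^ α := h3
        _ ≤ 2 * x ^ α := by gcongr
  rcases he with rfl | ⟨k, rfl⟩
  · refine key ?_
    have h2 : ‖1 - z‖ ≤ 2 := by
      refine (norm_sub_le _ _).trans ?_
      rw [norm_one]; linarith
    have h3 := hle2 _ hone.le h2
    rw [norm_sub_rev z 1]
    have : 0 ≤ ‖1 - z‖ ^ α := by positivity
    linarith
  · have hw : 0 < ‖z - c.ζ k‖ := norm_pos_iff.2 (sub_ne_zero.2 (c.mem_ne hE k))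
    by_cases hn : ‖z - c.ζ k‖ ≤ 96 * c.s k
    · have h2 := c.t_re_ge h0 h1 k z hz (c.mem_ne hE k) hn
      have h3 := (c.H_re_ge h0 h1 z hz hE).2 k
      have h4 : κ α * ‖z - c.ζ k‖ ^ (-α) ≤ ‖c.H z‖ :=
        (h2.trans h3).trans (Complex.re_le_norm _)
      have h5 : 1 ≤ (κ α)⁻¹ * ‖z - c.ζ k‖ ^ α * ‖c.H z‖ := by
        have h6 : (κ α)⁻¹ * ‖z - c.ζ k‖ ^ α * (κ α * ‖z - c.ζ k‖ ^ (-α)) = 1 := by
          rw [Real.rpow_neg hw.le]
          have : 0 < ‖z - c.ζ k‖ ^ α := Real.rpow_pos_of_pos hw _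
          field_simp
        rw [← h6]
        gcongr
      have h7 : 0 ≤ 6 * (κ' α)⁻¹ * ‖z - c.ζ k‖ ^ α * ‖c.H z‖ := by positivity
      nlinarith
    · push Not at hn
      refine key ?_
      have h2 : ‖1 - z‖ ≤ 4 * c.s k ^ α + ‖z - c.ζ k‖ := by
        have h4 : (1 : ℂ) - z = (1 - c.ζ k) - (z - c.ζ k) := by ring
        rw [h4]
        refine (norm_sub_le _ _).trans ?_
        have := c.close_one k
        linarith
      have hsk := c.s_pos k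
      have h3 : c.s k ^ α ≤ ‖z - c.ζ k‖ ^ α :=
        Real.rpow_le_rpow hsk.le (by linarith) h0.le
      have h4 : ‖z - c.ζ k‖ ≤ 2 := by
        refine (norm_sub_le _ _).trans ?_
        rw [c.norm_ζ]; linarith
      have h5 := hle2 _ hw.le h4
      linarith

end Config

end Pool.Agent.E8helper81.PK
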