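import Mathlib
import Pool.Agent.E8helper81.PK.Est

/-! Configurations made of blocks of equally spaced points. -/

set_option autoImplicit false

namespace Pool.Agent.E8helper81.PK

open Filter Topology Metric Set

/-- Data for the blocks: in the `n`-th block there are `N n` points with imaginary parts
`τ n + p ℓ n`, `p < N n`, where `ℓ n = τ n / (2 N n)`. -/
structure Blocks (α : ℝ) where
  τ : ℕ → ℝ
  s : ℕ → ℝ
  B : ℕ → ℝ
  N : ℕ → ℕ
  τ_pos : ∀ n, 0 < τ n
  τ_le : ∀ n, τ n ≤ 1 / 16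
  τ_lt : ∀ n m, n < m → τ m ≤ τ n / 8
  τ_lim : Tendsto τ atTop (𝓝 0)
  s_pos : ∀ n, 0 < s n
  s_le : ∀ n, 192 * s n ≤ τ n
  s_pow : ∀ n, s n ^ α = τ n
  N_pos : ∀ n, 1 ≤ N n
  B_ge : ∀ n, 128 ≤ B n
  B_mul : ∀ n, B n * s n ≤ τ n / (2 * N n)
  B_sum : Summable (fun n => 1 / B n)
  B_tsum : ∑' n, 1 / B n ≤ 1 / 128
  B_log : ∀ n, 4 / B n * (1 + Real.log (N n)) ≤ 1 / 128

lemma abs_sum_inv (N p₀ : ℕ) (h : p₀ < N) :
    ∑ p ∈ Finset.range N, (if p = p₀ then (0 : ℝ) else 1 / |(p : ℝ) - p₀|) ≤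
      2 * (1 + Real.log N) := by
  have hharm : ∀ m ≤ N, ∑ i ∈ Finset.range m, 1 / ((i : ℝ) + 1) ≤ 1 + Real.log N := by
    intro m hm
    have h1 : ∑ i ∈ Finset.range m, 1 / ((i : ℝ) + 1) ≤ ∑ i ∈ Finset.range N, 1 / ((i : ℝ) + 1) :=
      Finset.sum_le_sum_of_subset_of_nonneg (Finset.range_mono hm) (fun i _ _ => by positivity)
    refine h1.trans ?_
    have h2 := harmonic_le_one_add_log N
    have h3 : ((harmonic N : ℚ) : ℝ) = ∑ i ∈ Finset.range N, 1 / ((i : ℝ) + 1) := by
      rw [harmonic]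
      push_cast
      refine Finset.sum_congr rfl fun i _ => ?_
      rw [one_div]
    rw [← h3]; exact h2
  have hsplit : ∑ p ∈ Finset.range N, (if p = p₀ then (0 : ℝ) else 1 / |(p : ℝ) - p₀|) =
      ∑ p ∈ Finset.range p₀, (if p = p₀ then (0 : ℝ) else 1 / |(p : ℝ) - p₀|) +
      ∑ p ∈ Finset.Ico (p₀ + 1) N, (if p = p₀ then (0 : ℝ) else 1 / |(p : ℝ) - p₀|) := by
    rw [← Finset.sum_range_add_sum_Ico _ (show p₀ + 1 ≤ N from h), Finset.sum_range_succ]
    simp
  rw [hsplit]
  have h1 : ∑ p ∈ Finset.range p₀, (if p = p₀ then (0 : ℝ) else 1 / |(p : ℝ) - p₀|) =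
      ∑ i ∈ Finset.range p₀, 1 / ((i : ℝ) + 1) := by
    rw [← Finset.sum_range_reflect]
    refine Finset.sum_congr rfl fun i hi => ?_
    rw [Finset.mem_range] at hi
    rw [if_neg (by omega)]
    congr 1
    have : ((p₀ - 1 - i : ℕ) : ℝ) = (p₀ : ℝ) - 1 - i := by
      rw [Nat.cast_sub (by omega), Nat.cast_sub (by omega)]; simp
    rw [this]
    have h2 : (p₀ : ℝ) - 1 - i - p₀ = -((i : ℝ) + 1) := by ring
    rw [h2, abs_neg, abs_of_pos (by positivity)]
  have h2 : ∑ p ∈ Finset.Ico (p₀ + 1) N, (if p = p₀ then (0 : ℝ) else 1 / |(p : ℝ) - p₀|) =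
      ∑ i ∈ Finset.range (N - (p₀ + 1)), 1 / ((i : ℝ) + 1) := by
    rw [Finset.sum_Ico_eq_sum_range]
    refine Finset.sum_congr rfl fun i _ => ?_
    rw [if_neg (by omega)]
    congr 1
    push_cast
    have h2 : (p₀ : ℝ) + 1 + i - p₀ = (i : ℝ) + 1 := by ring
    rw [h2, abs_of_pos (by positivity)]
  rw [h1, h2]
  have := hharm p₀ h.le
  have := hharm (N - (p₀ + 1)) (by omega)
  linarith

/-- the point of the unit circle in the right half-plane with imaginary part `y` -/
noncomputable def pt (y : ℝ) : ℂ := ⟨Real.sqrt (1 - y ^ 2), y⟩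

lemma norm_pt (y : ℝ) (hy : y ^ 2 ≤ 1) : ‖pt y‖ = 1 := by
  have h1 : ‖pt y‖ ^ 2 = 1 := by
    rw [← Complex.normSq_eq_norm_sq, Complex.normSq_apply]
    simp only [pt]
    rw [Real.mul_self_sqrt (by linarith)]
    ring
  have h2 := norm_nonneg (pt y)
  nlinarith

lemma norm_one_sub_pt (y : ℝ) (hy0 : 0 ≤ y) (hy : y ≤ 1) : ‖1 - pt y‖ ≤ 2 * y := by
  have hy2 : y ^ 2 ≤ 1 := by nlinarith
  have h1 : ‖1 - pt y‖ ^ 2 ≤ (2 * y) ^ 2 := by
    rw [← Complex.normSq_eq_norm_sq, Complex.normSq_apply]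
    simp only [pt, Complex.sub_re, Complex.one_re, Complex.sub_im, Complex.one_im]
    have h2 : Real.sqrt (1 - y ^ 2) * Real.sqrt (1 - y ^ 2) = 1 - y ^ 2 :=
      Real.mul_self_sqrt (by linarith)
    have h3 : 1 - y ^ 2 ≤ Real.sqrt (1 - y ^ 2) := by
      refine Real.le_sqrt_of_sq_le ?_
      nlinarith
    nlinarith
  exact le_of_sq_le_sq h1 (by linarith)

lemma im_sub_le (z : ℂ) (y : ℝ) : |z.im - y| ≤ ‖z - pt y‖ := by
  have := Complex.abs_im_le_norm (z - pt y)
  simpa [pt] using this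

namespace Blocks

variable {α : ℝ} (b : Blocks α)

/-- spacing -/
noncomputable def ℓ (n : ℕ) : ℝ := b.τ n / (2 * b.N n)

lemma N_pos' (n : ℕ) : (0 : ℝ) < b.N n := by exact_mod_cast (b.N_pos n)

lemma ℓ_pos (n : ℕ) : 0 < b.ℓ n := div_pos (b.τ_pos n) (by have := b.N_pos' n; positivity)

lemma N_mul_ℓ (n : ℕ) : b.N n * b.ℓ n = b.τ n / 2 := by
  have := b.N_pos' n
  rw [ℓ]; field_simp

/-- imaginary parts -/
noncomputable def y (n p : ℕ) : ℝ := b.τ n + p * b.ℓ n

lemma y_ge (n p : ℕ) : b.τ n ≤ b.y n p := by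
  have := b.ℓ_pos n
  have : 0 ≤ (p : ℝ) * b.ℓ n := by positivity
  rw [y]; linarith

lemma y_le (n p : ℕ) (hp : p < b.N n) : b.y n p ≤ 3 / 2 * b.τ n := by
  have h1 := b.ℓ_pos n
  have h2 : (p : ℝ) * b.ℓ n ≤ b.N n * b.ℓ n := by gcongr
  rw [b.N_mul_ℓ] at h2
  rw [y]; linarith

lemma B_pos (n : ℕ) : 0 < b.B n := by have := b.B_ge n; linarith

lemma s_div_ℓ (n : ℕ) : b.s n / b.ℓ n ≤ 1 / b.B n := by
  rw [div_le_div_iff₀ (b.ℓ_pos n) (b.B_pos n)]
  have := b.B_mul n
  rw [ℓ]; linarith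

/-- the terms of the far sum -/
noncomputable def a (z : ℂ) (n p : ℕ) : ℝ :=
  if 64 * b.s n ≤ ‖z - pt (b.y n p)‖ then b.s n / ‖z - pt (b.y n p)‖ else 0

lemma a_nonneg (z : ℂ) (n p : ℕ) : 0 ≤ b.a z n p := by
  unfold a
  split_ifs
  · exact div_nonneg (b.s_pos n).le (norm_nonneg _)
  · exact le_rfl

lemma a_le (z : ℂ) (n p : ℕ) : b.a z n p ≤ 1 / 64 := by
  unfold a
  split_ifs with h
  · have hs := b.s_pos n
    have h2 : 0 < ‖z - pt (b.y n p)‖ := by linarith
    rw [div_le_div_iff₀ h2 (by norm_num)]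
    linarith
  · norm_num

lemma a_le_of (z : ℂ) (n p : ℕ) (d : ℝ) (hd : 0 < d) (h : d ≤ |z.im - b.y n p|) :
    b.a z n p ≤ b.s n / d := by
  unfold a
  have hs := b.s_pos n
  split_ifs
  · have h2 := h.trans (im_sub_le z (b.y n p))
    gcongr
  · positivity

lemma block_sum (z : ℂ) (n : ℕ) : ∑ p ∈ Finset.range (b.N n), b.a z n p ≤
    1 / b.B n + (if b.τ n / 2 ≤ z.im ∧ z.im ≤ 2 * b.τ n then 3 / 128 else 0) := by
  have hτ := b.τ_pos n
  have hs := b.s_pos n
  have hB := b.B_pos n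
  have hℓ := b.ℓ_pos n
  by_cases hw : b.τ n / 2 ≤ z.im ∧ z.im ≤ 2 * b.τ n
  · rw [if_pos hw]
    -- the nearest point
    obtain ⟨p₀, hp₀, hmin⟩ := Finset.exists_min_image (Finset.range (b.N n))
      (fun p => |z.im - b.y n p|) ⟨0, by rw [Finset.mem_range]; exact b.N_pos n⟩
    rw [Finset.mem_range] at hp₀
    have hterm : ∀ p ∈ Finset.range (b.N n), b.a z n p ≤
        (if p = p₀ then 1 / 64 else 0) +
          2 / b.B n * (if p = p₀ then (0 : ℝ) else 1 / |(p : ℝ) - p₀|) := by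
      intro p hp
      by_cases hpp : p = p₀
      · rw [if_pos hpp, if_pos hpp, mul_zero, add_zero]
        exact b.a_le z n p
      · rw [if_neg hpp, if_neg hpp, zero_add]
        have hne : (0 : ℝ) < |(p : ℝ) - p₀| := by
          rw [abs_pos, sub_ne_zero]; exact_mod_cast hpp
        have h1 := hmin p hp
        have h2 : b.ℓ n * |(p : ℝ) - p₀| / 2 ≤ |z.im - b.y n p| := by
          have h3 : b.ℓ n * |(p : ℝ) - p₀| = |b.y n p - b.y n p₀| := by
            rw [y, y, ← abs_of_pos hℓ, ← abs_mul, abs_of_pos hℓ]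
            congr 1; ring
          have h4 : |b.y n p - b.y n p₀| ≤ |z.im - b.y n p| + |z.im - b.y n p₀| := by
            have : b.y n p - b.y n p₀ = (z.im - b.y n p₀) - (z.im - b.y n p) := by ring
            rw [this]
            refine (abs_sub _ _).trans ?_
            linarith
          rw [h3]
          linarith
        refine (b.a_le_of z n p _ (by positivity) h2).trans ?_
        have h5 := b.s_div_ℓ n
        calc b.s n / (b.ℓ n * |(p : ℝ) - p₀| / 2) = 2 * (b.s n / b.ℓ n) * (1 / |(p : ℝ) - p₀|) := by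
              field_simp
          _ ≤ 2 * (1 / b.B n) * (1 / |(p : ℝ) - p₀|) := by gcongr
          _ = 2 / b.B n * (1 / |(p : ℝ) - p₀|) := by ring
    refine (Finset.sum_le_sum hterm).trans ?_
    rw [Finset.sum_add_distrib, ← Finset.mul_sum]
    have h6 := abs_sum_inv (b.N n) p₀ hp₀
    have h7 : ∑ p ∈ Finset.range (b.N n), (if p = p₀ then (1 : ℝ) / 64 else 0) ≤ 1 / 64 := by
      rw [Finset.sum_ite_eq']
      split_ifs <;> norm_num
    have h8 := b.B_log n
    have h9 : 2 / b.B n * ∑ p ∈ Finset.range (b.N n),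
        (if p = p₀ then (0 : ℝ) else 1 / |(p : ℝ) - p₀|) ≤ 2 / b.B n * (2 * (1 + Real.log (b.N n))) := by
      gcongr
    have h10 : 2 / b.B n * (2 * (1 + Real.log (b.N n))) = 4 / b.B n * (1 + Real.log (b.N n)) := by
      ring
    have h11 : 0 < 1 / b.B n := by positivity
    rw [h10] at h9
    linarith
  · rw [if_neg hw, add_zero]
    have hterm : ∀ p ∈ Finset.range (b.N n), b.a z n p ≤ b.s n / (b.τ n / 2) := by
      intro p hp
      rw [Finset.mem_range] at hp
      refine b.a_le_of z n p _ (by positivity) ?_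
      have h1 := b.y_ge n p
      have h2 := b.y_le n p hp
      rw [not_and_or, not_le, not_le] at hw
      rcases hw with h | h
      · rw [abs_sub_comm]
        refine le_trans ?_ (le_abs_self _)
        linarith
      · refine le_trans ?_ (le_abs_self _)
        linarith
    refine (Finset.sum_le_sum hterm).trans ?_
    rw [Finset.sum_const, Finset.card_range, nsmul_eq_mul]
    refine le_trans (le_of_eq ?_) (b.s_div_ℓ n)
    have := b.N_pos' n
    rw [ℓ]; field_simp

lemma window_unique (z : ℂ) (n m : ℕ) (hn : b.τ n / 2 ≤ z.im ∧ z.im ≤ 2 * b.τ n)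
    (hm : b.τ m / 2 ≤ z.im ∧ z.im ≤ 2 * b.τ m) : n = m := by
  rcases lt_trichotomy n m with h | h | h
  · have := b.τ_lt n m h
    have := b.τ_pos n
    linarith [hn.1, hm.2]
  · exact h
  · have := b.τ_lt m n h
    have := b.τ_pos m
    linarith [hm.1, hn.2]

lemma window_tsum (z : ℂ) :
    Summable (fun n => if b.τ n / 2 ≤ z.im ∧ z.im ≤ 2 * b.τ n then (3 : ℝ) / 128 else 0) ∧
      ∑' n, (if b.τ n / 2 ≤ z.im ∧ z.im ≤ 2 * b.τ n then (3 : ℝ) / 128 else 0) ≤ 3 / 128 := by
  classical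
  by_cases h : ∃ k, b.τ k / 2 ≤ z.im ∧ z.im ≤ 2 * b.τ k
  · obtain ⟨k, hk⟩ := h
    have h2 : (fun n => if b.τ n / 2 ≤ z.im ∧ z.im ≤ 2 * b.τ n then (3 : ℝ) / 128 else 0) =
        fun n => if n = k then (3 : ℝ) / 128 else 0 := by
      funext n
      by_cases hn : n = k
      · subst hn; simp [hk]
      · have : ¬ (b.τ n / 2 ≤ z.im ∧ z.im ≤ 2 * b.τ n) := fun h => hn (b.window_unique z n k h hk)
        rw [if_neg this, if_neg hn]
    rw [h2]
    exact ⟨(hasSum_ite_eq k ((3 : ℝ) / 128)).summable, (tsum_ite_eq k (fun _ => (3 : ℝ) / 128)).le⟩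
  · push Not at h
    have h2 : (fun n => if b.τ n / 2 ≤ z.im ∧ z.im ≤ 2 * b.τ n then (3 : ℝ) / 128 else 0) =
        fun _ => 0 := by
      funext n
      rw [if_neg (fun hc => absurd hc.2 (not_le.2 (h n hc.1)))]
    rw [h2]
    exact ⟨summable_zero, by simp; norm_num⟩

/-- index type -/
abbrev Idx : Type := Σ n : ℕ, Fin (b.N n)

lemma summable_idx (f : ℕ → ℕ → ℝ) (hf : ∀ n p, 0 ≤ f n p) (g : ℕ → ℝ) (hg : Summable g)
    (h : ∀ n, ∑ p ∈ Finset.range (b.N n), f n p ≤ g n) :
    Summable (fun j : b.Idx => f j.1 j.2) ∧ ∑' j : b.Idx, f j.1 j.2 ≤ ∑' n, g n := by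
  have hinner : ∀ n, ∑' p : Fin (b.N n), f n p = ∑ p ∈ Finset.range (b.N n), f n p := by
    intro n
    rw [tsum_fintype, ← Finset.sum_range (fun p => f n p)]
  have hs : Summable (fun j : b.Idx => f j.1 j.2) := by
    rw [summable_sigma_of_nonneg (fun j => hf _ _)]
    refine ⟨fun n => Summable.of_finite, ?_⟩
    simp only [hinner]
    exact Summable.of_nonneg_of_le (fun n => Finset.sum_nonneg fun p _ => hf n p) h hg
  refine ⟨hs, ?_⟩
  rw [hs.tsum_sigma]
  simp only [hinner]
  exact Summable.tsum_le_tsum h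
    (Summable.of_nonneg_of_le (fun n => Finset.sum_nonneg fun p _ => hf n p) h hg) hg

lemma y_lt_one (n p : ℕ) (hp : p < b.N n) : 0 < b.y n p ∧ b.y n p ≤ 1 / 8 := by
  have h1 := b.y_ge n p
  have h2 := b.y_le n p hp
  have h3 := b.τ_pos n
  have h4 := b.τ_le n
  constructor <;> linarith

/-- The configuration of the blocks. -/
noncomputable def config : Config α b.Idx where
  ζ := fun j => pt (b.y j.1 j.2)
  s := fun j => b.s j.1
  norm_ζ := fun j => norm_pt _ (by
    have := b.y_lt_one j.1 j.2 j.2.2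
    nlinarith)
  s_pos := fun j => b.s_pos _
  close_one := fun j => by
    have h2 := b.y_lt_one j.1 j.2 j.2.2
    have h3 := norm_one_sub_pt (b.y j.1 j.2) h2.1.le (by linarith)
    have h4 := b.y_le j.1 j.2 j.2.2
    have h5 := b.τ_pos j.1
    rw [b.s_pow]
    linarith
  far_one := fun j z hz => by
    rw [b.s_pow]
    have h2 := im_sub_le z (b.y j.1 j.2)
    have h3 := b.y_ge j.1 j.2
    have h4 := b.s_le j.1
    have h5 : |(1 - z).im| ≤ ‖1 - z‖ := Complex.abs_im_le_norm _
    have h6 : (1 - z).im = -z.im := by simp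
    rw [h6, abs_neg] at h5
    have h7 := (abs_le.1 (h2.trans hz)).1
    have h8 := le_abs_self z.im
    linarith
  uniq := fun z j k hj hk => by
    obtain ⟨n, p⟩ := j
    obtain ⟨m, q⟩ := k
    simp only at hj hk
    have h2 : |b.y n p - b.y m q| < 64 * b.s n + 64 * b.s m := by
      have h3 := im_sub_le z (b.y n p)
      have h4 := im_sub_le z (b.y m q)
      have h5 : b.y n p - b.y m q = (z.im - b.y m q) - (z.im - b.y n p) := by ring
      rw [h5]
      refine (abs_sub _ _).trans_lt ?_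
      linarith
    have key : ∀ n m p q : ℕ, p < b.N n → q < b.N m → n < m →
        64 * b.s n + 64 * b.s m ≤ b.y n p - b.y m q := by
      intro n m p q hp hq hnm
      have h3 := b.τ_lt n m hnm
      have h4 := b.y_ge n p
      have h5 := b.y_le m q hq
      have h6 := b.s_le n
      have h7 := b.s_le m
      have h8 := b.τ_pos n
      linarith
    rcases lt_trichotomy n m with h | h | h
    · have h3 := key n m p q p.2 q.2 h
      have h4 := le_abs_self (b.y n p - b.y m q)
      linarith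
    · subst h
      by_contra hne
      have hpq : (p : ℕ) ≠ q := by
        intro h
        exact hne (by rw [Fin.ext h])
      have h3 : (1 : ℝ) ≤ |(p : ℝ) - q| := by
        have h4 : ((p : ℤ) - (q : ℤ)) ≠ 0 := by
          intro h; exact hpq (by omega)
        have h5 := Int.one_le_abs h4
        have h6 : ((1 : ℤ) : ℝ) ≤ ((|(p : ℤ) - (q : ℤ)| : ℤ) : ℝ) := by exact_mod_cast h5
        push_cast at h6
        exact h6
      have hℓ := b.ℓ_pos n
      have h4 : |b.y n p - b.y n q| = b.ℓ n * |(p : ℝ) - q| := by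
        rw [y, y, ← abs_of_pos hℓ, ← abs_mul, abs_of_pos hℓ]
        congr 1; ring
      have h5 : b.ℓ n ≤ b.ℓ n * |(p : ℝ) - q| := by nlinarith
      have h6 := b.B_mul n
      have h7 := b.B_ge n
      have h8 := b.s_pos n
      have h9 : b.τ n / (2 * b.N n) = b.ℓ n := rfl
      rw [h9] at h6
      have h10 : 128 * b.s n ≤ b.B n * b.s n := by gcongr
      rw [h4] at h2
      linarith
    · have h3 := key m n q p q.2 p.2 h
      have h4 := neg_le_abs (b.y n p - b.y m q)
      linarith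
  mass := by
    have h := b.summable_idx (fun n _ => b.s n ^ (1 - α))
      (fun n _ => by have := b.s_pos n; positivity) (fun n => 1 / b.B n) b.B_sum (by
        intro n
        rw [Finset.sum_const, Finset.card_range, nsmul_eq_mul, Real.rpow_sub (b.s_pos n),
          Real.rpow_one, b.s_pow]
        have h2 := b.s_div_ℓ n
        have h3 := b.N_pos' n
        have h4 := b.τ_pos n
        have h5 := b.s_pos n
        have h6 : b.s n / b.ℓ n = 2 * (b.N n * (b.s n / b.τ n)) := by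
          rw [ℓ]; field_simp
        have h7 : 0 ≤ b.N n * (b.s n / b.τ n) := by positivity
        linarith)
    exact h.1
  mass_le := by
    have h := b.summable_idx (fun n _ => b.s n ^ (1 - α))
      (fun n _ => by have := b.s_pos n; positivity) (fun n => 1 / b.B n) b.B_sum (by
        intro n
        rw [Finset.sum_const, Finset.card_range, nsmul_eq_mul, Real.rpow_sub (b.s_pos n),
          Real.rpow_one, b.s_pow]
        have h2 := b.s_div_ℓ n
        have h3 := b.N_pos' n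
        have h4 := b.τ_pos n
        have h5 := b.s_pos n
        have h6 : b.s n / b.ℓ n = 2 * (b.N n * (b.s n / b.τ n)) := by
          rw [ℓ]; field_simp
        have h7 : 0 ≤ b.N n * (b.s n / b.τ n) := by positivity
        linarith)
    refine h.2.trans (b.B_tsum.trans (by norm_num))
  far := fun z _ => by
    have h := b.summable_idx (fun n p => b.a z n p) (b.a_nonneg z)
      (fun n => 1 / b.B n + (if b.τ n / 2 ≤ z.im ∧ z.im ≤ 2 * b.τ n then (3 : ℝ) / 128 else 0))
      (b.B_sum.add (b.window_tsum z).1) (b.block_sum z)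
    exact h.1
  far_le := fun z _ => by
    have h := b.summable_idx (fun n p => b.a z n p) (b.a_nonneg z)
      (fun n => 1 / b.B n + (if b.τ n / 2 ≤ z.im ∧ z.im ≤ 2 * b.τ n then (3 : ℝ) / 128 else 0))
      (b.B_sum.add (b.window_tsum z).1) (b.block_sum z)
    refine h.2.trans ?_
    rw [b.B_sum.tsum_add (b.window_tsum z).1]
    have h2 := (b.window_tsum z).2
    have h3 := b.B_tsum
    linarith
  lim := by
    rw [Metric.tendsto_nhds]
    intro ε hε
    rw [Filter.eventually_cofinite]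
    have h2 : ∀ᶠ n in atTop, b.τ n < ε / 4 := b.τ_lim.eventually_lt_const (by positivity)
    obtain ⟨n₀, hn₀⟩ := h2.exists_forall_of_atTop
    refine Set.Finite.subset (s := ⋃ n ∈ Finset.range n₀, Set.range (Sigma.mk n)) ?_ ?_
    · exact Set.Finite.biUnion (Finset.finite_toSet _) fun n _ => Set.finite_range _
    · intro j hj
      rw [mem_ofPred_eq, not_lt, dist_eq_norm, norm_sub_rev] at hj
      have h3 := b.y_lt_one j.1 j.2 j.2.2
      have h4 := norm_one_sub_pt (b.y j.1 j.2) h3.1.le (by linarith)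
      have h5 := b.y_le j.1 j.2 j.2.2
      have h6 : j.1 < n₀ := by
        by_contra hcon
        push Not at hcon
        have := hn₀ j.1 hcon
        linarith
      simp only [Finset.mem_range, mem_iUnion, mem_range]
      exact ⟨j.1, h6, j.2, rfl⟩

end Blocks

end Pool.Agent.E8helper81.PK
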