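import Mathlib

/-! Analytic Lipschitz classes, peak sets, Gevrey classes and their zero sets on the circle. -/

set_option autoImplicit false

namespace Pool.Agent.E8helper81.PK

open Filter Topology Metric Set

/-- The class `A_α`: the functions `f`, analytic in the open unit disc and continuous on the closed
disc, with `|f(x) - f(y)| ≤ C |x - y| ^ α` for all `x`, `y` on the unit circle, for a constant
`C`. -/
def LipClass (α : ℝ) : Set (ℂ → ℂ) :=
  {f | DifferentiableOn ℂ f (ball 0 1) ∧ ContinuousOn f (closedBall 0 1) ∧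
    ∃ C : ℝ, ∀ x ∈ sphere (0 : ℂ) 1, ∀ y ∈ sphere (0 : ℂ) 1, ‖f x - f y‖ ≤ C * ‖x - y‖ ^ α}

/-- `P_α`: the closed subsets `E` of the unit circle for which some `f` in `A_α` is identically
`1` on `E` and satisfies `|f| < 1` on the rest of the circle. -/
def PeakSets (α : ℝ) : Set (Set ℂ) :=
  {E | IsClosed E ∧ E ⊆ sphere 0 1 ∧ ∃ f ∈ LipClass α,
    (∀ x ∈ E, f x = 1) ∧ ∀ x ∈ sphere (0 : ℂ) 1 \ E, ‖f x‖ < 1}

/-- The Gevrey class `G_α`: the functions `f` analytic in the open unit disc with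
`|f^(n)(z)| ≤ C ^ (n + 1) (n!) ^ (1 + 1 / α)` for all `n` and all `z` in the disc, for a constant
`C`. -/
def GevreyClass (α : ℝ) : Set (ℂ → ℂ) :=
  {f | DifferentiableOn ℂ f (ball 0 1) ∧ ∃ C : ℝ, ∀ n : ℕ, ∀ z ∈ ball (0 : ℂ) 1,
    ‖iteratedDeriv n f z‖ ≤ C ^ (n + 1) * (n.factorial : ℝ) ^ (1 + 1 / α)}

/-- `Z(G_α)`: the closed subsets `E` of the unit circle for which some `f` in `G_α`, not
identically `0` on the disc, has `f^(n) = 0` on `E` for all `n` (the value of `f^(n)` at a point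
`x` of the circle is its limit at `x` from inside the disc). -/
def ZeroSets (α : ℝ) : Set (Set ℂ) :=
  {E | IsClosed E ∧ E ⊆ sphere 0 1 ∧ ∃ f ∈ GevreyClass α, (∃ z ∈ ball (0 : ℂ) 1, f z ≠ 0) ∧
    ∀ n : ℕ, ∀ x ∈ E, Tendsto (iteratedDeriv n f) (𝓝[ball 0 1] x) (𝓝 0)}

end Pool.Agent.E8helper81.PK
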