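import Mathlib
import Pool.Agent.E8helper81.PK.Defs

/-! A set whose distance function is small is not a zero set of the Gevrey class. -/

set_option autoImplicit false

namespace Pool.Agent.E8helper81.PK

open Filter Topology Metric Set

/-- Taylor's estimate at a boundary point where all derivatives vanish. -/
lemma taylor_flat {f : ℂ → ℂ} (hf : DifferentiableOn ℂ f (ball 0 1)) {e : ℂ} (he : ‖e‖ = 1)
    (hflat : ∀ n : ℕ, Tendsto (iteratedDeriv n f) (𝓝[ball 0 1] e) (𝓝 0)) (n : ℕ) (M : ℝ)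
    (hM0 : 0 ≤ M) (hM : ∀ z ∈ ball (0 : ℂ) 1, ‖iteratedDeriv n f z‖ ≤ M) :
    ∀ k : ℕ, k ≤ n → ∀ z ∈ ball (0 : ℂ) 1,
      ‖iteratedDeriv (n - k) f z‖ ≤ M * ‖z - e‖ ^ k / (k.factorial : ℝ) := by
  have han : ∀ m : ℕ, DifferentiableOn ℂ (iteratedDeriv m f) (ball 0 1) := by
    intro m
    have h1 : AnalyticOnNhd ℂ f (ball 0 1) := hf.analyticOnNhd isOpen_ball
    have h2 := h1.iterated_deriv m
    rw [iteratedDeriv_eq_iterate]
    exact h2.differentiableOn
  intro k
  induction k with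
  | zero =>
    intro _ z hz
    simpa using hM z hz
  | succ k ih =>
    intro hk z hz
    have ihk := ih (by omega)
    have hz1 : ‖z‖ < 1 := by rwa [mem_ball_zero_iff] at hz
    -- the path
    set γ : ℝ → ℂ := fun t => e + (t : ℂ) * (z - e) with hγ
    have hγball : ∀ t : ℝ, 0 < t → t ≤ 1 → γ t ∈ ball (0 : ℂ) 1 := by
      intro t ht0 ht1
      rw [mem_ball_zero_iff]
      have h2 : γ t = ((1 - t : ℝ) : ℂ) * e + (t : ℂ) * z := by
        rw [hγ]; push_cast; ring
      rw [h2]
      refine (norm_add_le _ _).trans_lt ?_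
      rw [norm_mul, norm_mul, Complex.norm_real, Complex.norm_real, he,
        Real.norm_of_nonneg (by linarith), Real.norm_of_nonneg ht0.le]
      nlinarith
    set m := n - (k + 1) with hm
    have hmk : n - k = m + 1 := by omega
    rw [hmk] at ihk
    -- the function along the path
    have hder : ∀ t : ℝ, 0 < t → t ≤ 1 →
        HasDerivAt (fun t : ℝ => iteratedDeriv m f (γ t)) (iteratedDeriv (m + 1) f (γ t) * (z - e))
          t := by
      intro t ht0 ht1
      have h2 : HasDerivAt (iteratedDeriv m f) (iteratedDeriv (m + 1) f (γ t)) (γ t) := by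
        rw [iteratedDeriv_succ]
        exact ((han m).differentiableAt (isOpen_ball.mem_nhds (hγball t ht0 ht1))).hasDerivAt
      have h3 : HasDerivAt γ (z - e) t := by
        have h4 : HasDerivAt (fun t : ℝ => (t : ℂ)) 1 t := Complex.ofRealCLM.hasDerivAt
        have h5 := (h4.mul_const (z - e)).const_add e
        rw [one_mul] at h5
        exact h5
      exact h2.comp t h3
    have hlim : Tendsto (fun t : ℝ => iteratedDeriv m f (γ t)) (𝓝[>] 0) (𝓝 0) := by
      refine (hflat m).comp ?_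
      refine tendsto_nhdsWithin_iff.2 ⟨?_, ?_⟩
      · have h2 : Continuous γ := by rw [hγ]; fun_prop
        have h3 : Tendsto γ (𝓝 0) (𝓝 (γ 0)) := h2.tendsto 0
        have h4 : γ 0 = e := by simp [hγ]
        rw [h4] at h3
        exact h3.mono_left nhdsWithin_le_nhds
      · have : ∀ᶠ t : ℝ in 𝓝[>] 0, t ∈ Ioo (0 : ℝ) 1 := Ioo_mem_nhdsGT (by norm_num)
        filter_upwards [this] with t ht
        exact hγball t ht.1 ht.2.le
    refine le_of_forall_pos_le_add fun δ hδ => ?_
    have h2 : ∀ᶠ t : ℝ in 𝓝[>] 0, ‖iteratedDeriv m f (γ t)‖ < δ := by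
      have := (hlim.norm)
      rw [norm_zero] at this
      exact this.eventually_lt_const hδ
    have h3 : ∀ᶠ t : ℝ in 𝓝[>] 0, t ∈ Ioo (0 : ℝ) 1 := Ioo_mem_nhdsGT (by norm_num)
    obtain ⟨a, ha1, ha2⟩ := (h2.and h3).exists
    have hbound := image_norm_le_of_norm_deriv_right_le_deriv_boundary
      (f := fun t : ℝ => iteratedDeriv m f (γ t)) (a := a) (b := 1)
      (f' := fun t : ℝ => iteratedDeriv (m + 1) f (γ t) * (z - e))
      (B := fun t : ℝ => M * ‖z - e‖ ^ (k + 1) / ((k + 1).factorial : ℝ) * t ^ (k + 1) + δ)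
      (B' := fun t : ℝ => M * ‖z - e‖ ^ (k + 1) / ((k + 1).factorial : ℝ) *
        (((k + 1 : ℕ) : ℝ) * t ^ k))
      (fun t ht => (hder t (by linarith [ht.1, ha2.1]) ht.2).continuousAt.continuousWithinAt)
      (fun t ht => (hder t (by linarith [ht.1, ha2.1]) ht.2.le).hasDerivWithinAt)
      (by
        have : 0 ≤ M * ‖z - e‖ ^ (k + 1) / ((k + 1).factorial : ℝ) * a ^ (k + 1) := by
          have := ha2.1.le
          positivity
        linarith)
      (fun t => by
        have h4 := hasDerivAt_pow (k + 1) t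
        simp only [Nat.add_sub_cancel] at h4
        exact (h4.const_mul _).add_const δ)
      (fun t ht => by
        have ht0 : 0 < t := by linarith [ht.1, ha2.1]
        have h5 := ihk (γ t) (hγball t ht0 ht.2.le)
        have h6 : ‖γ t - e‖ = t * ‖z - e‖ := by
          rw [hγ]
          simp only [add_sub_cancel_left, norm_mul, Complex.norm_real, Real.norm_of_nonneg ht0.le]
        rw [h6] at h5
        rw [norm_mul]
        calc ‖iteratedDeriv (m + 1) f (γ t)‖ * ‖z - e‖
            ≤ M * (t * ‖z - e‖) ^ k / (k.factorial : ℝ) * ‖z - e‖ := by gcongr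
          _ = M * ‖z - e‖ ^ (k + 1) / ((k + 1).factorial : ℝ) * (((k + 1 : ℕ) : ℝ) * t ^ k) := by
            rw [Nat.factorial_succ, mul_pow]
            push_cast
            have : (k.factorial : ℝ) ≠ 0 := by positivity
            have h7 : (k : ℝ) + 1 ≠ 0 := by positivity
            field_simp
            ring)
    have h4 := hbound (right_mem_Icc.2 ha2.2.le)
    have h5 : γ 1 = z := by simp [hγ]
    simp only [h5, one_pow, mul_one] at h4
    exact h4

/-- Decay of a flat function of the Gevrey class. -/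
lemma gevrey_decay {α : ℝ} (hα : 0 < α) {f : ℂ → ℂ} (hf : f ∈ GevreyClass α) :
    ∃ A a : ℝ, 1 ≤ A ∧ 0 < a ∧ ∀ e : ℂ, ‖e‖ = 1 →
      (∀ n : ℕ, Tendsto (iteratedDeriv n f) (𝓝[ball 0 1] e) (𝓝 0)) →
      ∀ z ∈ ball (0 : ℂ) 1, ‖f z‖ ≤ A * Real.exp (-(a * ‖z - e‖ ^ (-α))) := by
  obtain ⟨hd, C₀, hC₀⟩ := hf
  -- enlarge the constant
  set C := max 1 |C₀| with hC
  have hC1 : 1 ≤ C := le_max_left _ _
  have hCn : ∀ n : ℕ, ∀ z ∈ ball (0 : ℂ) 1,
      ‖iteratedDeriv n f z‖ ≤ C ^ (n + 1) * (n.factorial : ℝ) ^ (1 + 1 / α) := by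
    intro n z hz
    refine (hC₀ n z hz).trans ?_
    refine mul_le_mul_of_nonneg_right ?_ (by positivity)
    refine (le_abs_self _).trans ?_
    rw [abs_pow]
    exact pow_le_pow_left₀ (abs_nonneg _) (le_max_right _ _) _
  have hC0 : 0 < C := by linarith
  have he0 : 0 < Real.exp 1 := Real.exp_pos 1
  refine ⟨C * Real.exp 1, (Real.exp 1 * C) ^ (-α), ?_, by positivity, ?_⟩
  · have : (1 : ℝ) ≤ Real.exp 1 := Real.one_le_exp (by norm_num)
    nlinarith
  intro e he hflat z hz
  have hz1 : ‖z‖ < 1 := by rwa [mem_ball_zero_iff] at hz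
  have hx0 : 0 < ‖z - e‖ := by
    rw [norm_pos_iff, sub_ne_zero]
    rintro rfl
    linarith
  set x := ‖z - e‖ with hx
  set y := Real.exp 1 * C * x with hy
  have hy0 : 0 < y := by positivity
  set n := ⌊y ^ (-α)⌋₊ with hn
  have hn1 : (n : ℝ) ≤ y ^ (-α) := Nat.floor_le (by positivity)
  have hn2 : y ^ (-α) < n + 1 := Nat.lt_floor_add_one _
  have h1 := taylor_flat hd he hflat n (C ^ (n + 1) * (n.factorial : ℝ) ^ (1 + 1 / α))
    (by positivity) (hCn n) n le_rfl z hz
  rw [Nat.sub_self, iteratedDeriv_zero] at h1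
  have hfac : (0 : ℝ) < (n.factorial : ℝ) := by positivity
  have h2 : C ^ (n + 1) * (n.factorial : ℝ) ^ (1 + 1 / α) * x ^ n / (n.factorial : ℝ) =
      C * ((n.factorial : ℝ) ^ (1 / α) * (C * x) ^ n) := by
    rw [Real.rpow_add hfac, Real.rpow_one, mul_pow, pow_succ]
    field_simp
  rw [h2] at h1
  -- `(n!)^(1/α) ≤ (1 / y)^n`
  have h3 : (n.factorial : ℝ) ^ (1 / α) ≤ (y⁻¹) ^ n := by
    have h4 : (n.factorial : ℝ) ≤ (n : ℝ) ^ n := by exact_mod_cast Nat.factorial_le_pow n
    have h5 : (n : ℝ) ^ (1 / α) ≤ y⁻¹ := by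
      calc (n : ℝ) ^ (1 / α) ≤ (y ^ (-α)) ^ (1 / α) :=
            Real.rpow_le_rpow (by positivity) hn1 (by positivity)
        _ = y⁻¹ := by
            rw [← Real.rpow_mul hy0.le]
            have : -α * (1 / α) = -1 := by field_simp
            rw [this, Real.rpow_neg_one]
    calc (n.factorial : ℝ) ^ (1 / α) ≤ ((n : ℝ) ^ n) ^ (1 / α) :=
          Real.rpow_le_rpow hfac.le h4 (by positivity)
      _ = ((n : ℝ) ^ (1 / α)) ^ n := by
          rw [← Real.rpow_natCast, ← Real.rpow_mul (by positivity), mul_comm,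
            Real.rpow_mul (by positivity), Real.rpow_natCast]
      _ ≤ (y⁻¹) ^ n := by gcongr
  have h6 : (n.factorial : ℝ) ^ (1 / α) * (C * x) ^ n ≤ Real.exp (-(n : ℝ)) := by
    calc (n.factorial : ℝ) ^ (1 / α) * (C * x) ^ n ≤ (y⁻¹) ^ n * (C * x) ^ n := by gcongr
      _ = (y⁻¹ * (C * x)) ^ n := by rw [← mul_pow]
      _ = (Real.exp (-1)) ^ n := by
          congr 1
          rw [hy, Real.exp_neg]
          field_simp
      _ = Real.exp (-(n : ℝ)) := by rw [← Real.exp_nat_mul]; congr 1; ring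
  have h7 : (Real.exp 1 * C) ^ (-α) * x ^ (-α) = y ^ (-α) := by
    rw [hy, Real.mul_rpow (by positivity) hx0.le]
  rw [h7]
  calc ‖f z‖ ≤ C * ((n.factorial : ℝ) ^ (1 / α) * (C * x) ^ n) := h1
    _ ≤ C * Real.exp (-(n : ℝ)) := by gcongr
    _ ≤ C * (Real.exp 1 * Real.exp (-(y ^ (-α)))) := by
        rw [← Real.exp_add]
        gcongr
        linarith
    _ = C * Real.exp 1 * Real.exp (-(y ^ (-α))) := by ring

/-- Jensen: the means of `log |f|` over circles are bounded from below. -/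
lemma jensen_lower {f : ℂ → ℂ} (hf : DifferentiableOn ℂ f (ball 0 1)) :
    ∃ Λ : ℝ, ∀ r : ℝ, 1 / 2 ≤ r → r < 1 →
      -Λ ≤ Real.circleAverage (fun z => Real.log ‖f z‖) 0 r := by
  have hana : AnalyticOnNhd ℂ f (ball 0 1) := hf.analyticOnNhd isOpen_ball
  refine ⟨|((meromorphicOrderAt f 0).untop₀ : ℝ)| * Real.log 2 +
    |Real.log ‖meromorphicTrailingCoeffAt f 0‖|, fun r hr1 hr2 => ?_⟩
  have hr0 : 0 < r := by linarith
  have hsub : closedBall (0 : ℂ) |r| ⊆ ball 0 1 := by
    rw [abs_of_pos hr0]; exact closedBall_subset_ball hr2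
  have hA : AnalyticOnNhd ℂ f (closedBall 0 |r|) := hana.mono hsub
  rw [MeromorphicOn.circleAverage_log_norm hr0.ne' hA.meromorphicOn]
  have hdiv := MeromorphicOn.AnalyticOnNhd.divisor_nonneg hA
  have h1 : 0 ≤ ∑ᶠ (u : ℂ), ((MeromorphicOn.divisor f (closedBall 0 |r|)) u : ℝ) *
      Real.log (r * ‖0 - u‖⁻¹) := by
    refine finsum_nonneg fun u => ?_
    have h2 : (0 : ℝ) ≤ ((MeromorphicOn.divisor f (closedBall 0 |r|)) u : ℝ) := by
      exact_mod_cast hdiv u
    by_cases hu : u ∈ closedBall (0 : ℂ) |r|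
    · rcases eq_or_ne u 0 with rfl | hu0
      · simp
      · refine mul_nonneg h2 (Real.log_nonneg ?_)
        rw [mem_closedBall_zero_iff, abs_of_pos hr0] at hu
        rw [zero_sub, norm_neg, ← div_eq_mul_inv, one_le_div (norm_pos_iff.2 hu0)]
        exact hu
    · have : (MeromorphicOn.divisor f (closedBall 0 |r|)) u = 0 :=
        Function.locallyFinsuppWithin.apply_eq_zero_of_notMem _ hu
      rw [this]; simp
  have h2 : (MeromorphicOn.divisor f (closedBall 0 |r|)) 0 = (meromorphicOrderAt f 0).untop₀ :=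
    MeromorphicOn.divisor_apply hA.meromorphicOn (by simp)
  rw [h2]
  have hlog : |Real.log r| ≤ Real.log 2 := by
    rw [abs_le]
    constructor
    · have : Real.log (1 / 2) ≤ Real.log r := Real.log_le_log (by norm_num) hr1
      rw [one_div, Real.log_inv] at this
      exact this
    · have := Real.log_nonpos hr0.le hr2.le
      have := Real.log_nonneg (show (1 : ℝ) ≤ 2 by norm_num)
      linarith
  have h3 : -(|((meromorphicOrderAt f 0).untop₀ : ℝ)| * Real.log 2) ≤
      ((meromorphicOrderAt f 0).untop₀ : ℝ) * Real.log r := by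
    have h4 : |((meromorphicOrderAt f 0).untop₀ : ℝ) * Real.log r| ≤
        |((meromorphicOrderAt f 0).untop₀ : ℝ)| * Real.log 2 := by
      rw [abs_mul]; gcongr
    exact (abs_le.1 h4).1
  have h4 := neg_abs_le (Real.log ‖meromorphicTrailingCoeffAt f 0‖)
  linarith

/-- There are circles with radii close to `1` without zeros of `f`. -/
lemma exists_radius {f : ℂ → ℂ} (hf : DifferentiableOn ℂ f (ball 0 1))
    (hne : ∃ z ∈ ball (0 : ℂ) 1, f z ≠ 0) (r₀ : ℝ) (hr₀ : r₀ < 1) :
    ∃ r : ℝ, r₀ < r ∧ 1 / 2 ≤ r ∧ r < 1 ∧ ∀ z : ℂ, ‖z‖ = r → f z ≠ 0 := by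
  have hana : AnalyticOnNhd ℂ f (ball 0 1) := hf.analyticOnNhd isOpen_ball
  set a := max r₀ (1 / 2) with ha
  have ha1 : a < 1 := max_lt hr₀ (by norm_num)
  set b := (a + 1) / 2 with hb
  have hab : a < b := by rw [hb]; linarith
  have hb1 : b < 1 := by rw [hb]; linarith
  set Z : Set ℂ := {z | z ∈ closedBall (0 : ℂ) b ∧ f z = 0} with hZ
  have hfin : Z.Finite := by
    by_contra hinf
    have hinf' : Z.Infinite := hinf
    obtain ⟨x, hx, hacc⟩ := hinf'.exists_accPt_of_subset_isCompact (isCompact_closedBall 0 b)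
      (fun z hz => hz.1)
    have hxb : x ∈ ball (0 : ℂ) 1 := closedBall_subset_ball hb1 hx
    have hfreq : ∃ᶠ z in 𝓝[≠] x, f z = 0 := by
      have h2 := accPt_iff_frequently_nhdsNE.1 hacc
      exact h2.mono fun z hz => hz.2
    have h3 := hana.eqOn_zero_of_preconnected_of_frequently_eq_zero
      (convex_ball (0 : ℂ) 1).isPreconnected hxb hfreq
    obtain ⟨z, hz, hz2⟩ := hne
    exact hz2 (h3 hz)
  have hfin2 : ((fun z : ℂ => ‖z‖) '' Z).Finite := hfin.image _
  obtain ⟨r, hr1, hr2⟩ := ((Ioo_infinite hab).sdiff hfin2).nonempty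
  refine ⟨r, lt_of_le_of_lt (le_max_left _ _) hr1.1, (le_max_right _ _).trans hr1.1.le,
    hr1.2.trans hb1, ?_⟩
  intro z hz hfz
  refine hr2 ⟨z, ⟨?_, hfz⟩, hz⟩
  rw [mem_closedBall_zero_iff, hz]
  exact hr1.2.le

/-- **Criterion.** If the integral of `dist(·, E) ^ (-α)` diverges (in the form below), then `E` is
not a zero set of `G_α`. -/
lemma not_zeroSet {α : ℝ} (hα : 0 < α) {E : Set ℂ}
    (hdiv : ∀ A : ℝ, ∃ (g : ℝ → ℝ) (η : ℝ), 0 < η ∧
      IntervalIntegrable g MeasureTheory.volume 0 (2 * Real.pi) ∧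
      A ≤ ∫ θ in (0 : ℝ)..2 * Real.pi, g θ ∧
      ∀ r : ℝ, 1 - η < r → r < 1 → ∀ θ ∈ Icc 0 (2 * Real.pi),
        g θ ≤ 0 ∨ ∃ e ∈ E, g θ ≤ ‖circleMap 0 r θ - e‖ ^ (-α)) :
    E ∉ ZeroSets α := by
  rintro ⟨-, hEs, f, hf, hne, hflat⟩
  obtain ⟨A₀, a₀, hA₀, ha₀, hdecay⟩ := gevrey_decay hα hf
  obtain ⟨Λ, hΛ⟩ := jensen_lower hf.1
  have hpi := Real.pi_pos
  obtain ⟨g, η, hη, hgi, hgA, hg⟩ := hdiv ((Real.log A₀ + Λ + 1) * (2 * Real.pi) / a₀)
  obtain ⟨r, hr1, hr2, hr3, hr4⟩ := exists_radius hf.1 hne (1 - η) (by linarith)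
  have hr0 : 0 < r := by linarith
  have hbound : ∀ θ ∈ Icc 0 (2 * Real.pi),
      Real.log ‖f (circleMap 0 r θ)‖ ≤ Real.log A₀ - a₀ * g θ := by
    intro θ hθ
    have hball : circleMap 0 r θ ∈ ball (0 : ℂ) 1 := by
      rw [mem_ball_zero_iff, norm_circleMap_zero, abs_of_pos hr0]; exact hr3
    have hfne : f (circleMap 0 r θ) ≠ 0 :=
      hr4 _ (by rw [norm_circleMap_zero, abs_of_pos hr0])
    have hfpos : 0 < ‖f (circleMap 0 r θ)‖ := norm_pos_iff.2 hfne
    -- an estimate for every point of `E`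
    have hE : ∀ e ∈ E, Real.log ‖f (circleMap 0 r θ)‖ ≤
        Real.log A₀ - a₀ * ‖circleMap 0 r θ - e‖ ^ (-α) := by
      intro e he
      have he1 : ‖e‖ = 1 := by simpa using hEs he
      have h2 := hdecay e he1 (fun n => hflat n e he) _ hball
      have h3 := Real.log_le_log hfpos h2
      rw [Real.log_mul (by linarith) (Real.exp_pos _).ne', Real.log_exp] at h3
      linarith
    rcases hg r hr1 hr3 θ hθ with h | ⟨e, he, h⟩
    · -- need some bound by `log A₀`
      have hE0 : E.Nonempty ∨ E = ∅ := by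
        rcases E.eq_empty_or_nonempty with h | h
        · exact Or.inr h
        · exact Or.inl h
      rcases hE0 with ⟨e, he⟩ | hempty
      · have h2 := hE e he
        have h3 : 0 ≤ ‖circleMap 0 r θ - e‖ ^ (-α) := by positivity
        have h4 : 0 ≤ a₀ * ‖circleMap 0 r θ - e‖ ^ (-α) := by positivity
        have h5 : a₀ * g θ ≤ 0 := mul_nonpos_of_nonneg_of_nonpos ha₀.le h
        linarith
      · exfalso
        -- `g ≤ 0` everywhere, so its integral is nonpositive
        have hg0 : ∀ θ ∈ Icc 0 (2 * Real.pi), g θ ≤ 0 := by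
          intro θ hθ
          rcases hg r hr1 hr3 θ hθ with h | ⟨e, he, -⟩
          · exact h
          · rw [hempty] at he; exact absurd he (notMem_empty e)
        obtain ⟨g', η', hη', hgi', hgA', hg'⟩ := hdiv 1
        have h6 : 0 ≤ ∫ θ in (0 : ℝ)..2 * Real.pi, -g' θ := by
          refine intervalIntegral.integral_nonneg (by positivity) ?_
          intro u hu
          rw [neg_nonneg]
          rcases hg' (1 - min η' 1 / 2) (by
            have : 0 < min η' 1 := lt_min hη' one_pos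
            have := min_le_left η' 1
            linarith) (by
            have : 0 < min η' 1 := lt_min hη' one_pos
            linarith) u hu with h | ⟨e, he, -⟩
          · exact h
          · rw [hempty] at he; exact absurd he (notMem_empty e)
        rw [intervalIntegral.integral_neg] at h6
        linarith
    · have h2 := hE e he
      have h3 : a₀ * g θ ≤ a₀ * ‖circleMap 0 r θ - e‖ ^ (-α) := by gcongr
      linarith
  have hlow := hΛ r hr2 hr3
  rw [Real.circleAverage_def] at hlow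
  have hci : IntervalIntegrable (fun θ => Real.log ‖f (circleMap 0 r θ)‖) MeasureTheory.volume 0
      (2 * Real.pi) := by
    have hana : AnalyticOnNhd ℂ f (ball 0 1) := hf.1.analyticOnNhd isOpen_ball
    have h2 : AnalyticOnNhd ℂ f (sphere 0 |r|) := by
      refine hana.mono ?_
      rw [abs_of_pos hr0]
      exact sphere_subset_closedBall.trans (closedBall_subset_ball hr3)
    exact MeromorphicOn.circleIntegrable_log_norm h2.meromorphicOn
  have hint : ∫ θ in (0 : ℝ)..2 * Real.pi, Real.log ‖f (circleMap 0 r θ)‖ ≤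
      ∫ θ in (0 : ℝ)..2 * Real.pi, (Real.log A₀ - a₀ * g θ) := by
    refine intervalIntegral.integral_mono_on (by positivity) hci ?_ hbound
    exact intervalIntegrable_const.sub (hgi.const_mul a₀)
  rw [intervalIntegral.integral_sub intervalIntegrable_const (hgi.const_mul a₀),
    intervalIntegral.integral_const, intervalIntegral.integral_const_mul] at hint
  simp only [sub_zero, smul_eq_mul] at hint hlow
  have h5 : (Real.log A₀ + Λ + 1) * (2 * Real.pi) ≤ a₀ * ∫ θ in (0 : ℝ)..2 * Real.pi, g θ := by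
    rw [div_le_iff₀ ha₀] at hgA
    linarith
  have h6 : -Λ ≤ (2 * Real.pi)⁻¹ * (2 * Real.pi * Real.log A₀ -
      (Real.log A₀ + Λ + 1) * (2 * Real.pi)) := by
    refine hlow.trans ?_
    gcongr
    linarith
  have h7 : (2 * Real.pi)⁻¹ * (2 * Real.pi * Real.log A₀ -
      (Real.log A₀ + Λ + 1) * (2 * Real.pi)) = -Λ - 1 := by
    field_simp
    ring
  linarith

end Pool.Agent.E8helper81.PK
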