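import Mathlib
import Pool.Agent.E8helper81.PK.Conf
import Pool.Agent.E8helper81.PK.Zero

/-! The blocks give sets which are not zero sets of the Gevrey class. -/

set_option autoImplicit false

namespace Pool.Agent.E8helper81.PK

open Filter Topology Metric Set

lemma norm_pt_sub (u v : ℝ) (hu : |u| ≤ 1 / 8) (hv : |v| ≤ 1 / 8) :
    ‖pt u - pt v‖ ≤ 2 * |u - v| := by
  have hu2 : u ^ 2 ≤ 1 / 64 := by
    have := sq_le_sq' (by linarith [(abs_le.1 hu).1]) (abs_le.1 hu).2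
    linarith
  have hv2 : v ^ 2 ≤ 1 / 64 := by
    have := sq_le_sq' (by linarith [(abs_le.1 hv).1]) (abs_le.1 hv).2
    linarith
  have h1 : ‖pt u - pt v‖ ≤ |Real.sqrt (1 - u ^ 2) - Real.sqrt (1 - v ^ 2)| + |u - v| := by
    have := Complex.norm_le_abs_re_add_abs_im (pt u - pt v)
    simpa [pt] using this
  have h2 : |Real.sqrt (1 - u ^ 2) - Real.sqrt (1 - v ^ 2)| ≤ |u - v| := by
    have hsu : 1 / 2 ≤ Real.sqrt (1 - u ^ 2) := Real.le_sqrt_of_sq_le (by norm_num; linarith)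
    have hsv : 1 / 2 ≤ Real.sqrt (1 - v ^ 2) := Real.le_sqrt_of_sq_le (by norm_num; linarith)
    have h3 : (Real.sqrt (1 - u ^ 2) - Real.sqrt (1 - v ^ 2)) *
        (Real.sqrt (1 - u ^ 2) + Real.sqrt (1 - v ^ 2)) = (v - u) * (v + u) := by
      have e1 := Real.mul_self_sqrt (show 0 ≤ 1 - u ^ 2 by linarith)
      have e2 := Real.mul_self_sqrt (show 0 ≤ 1 - v ^ 2 by linarith)
      nlinarith
    have h4 : |Real.sqrt (1 - u ^ 2) - Real.sqrt (1 - v ^ 2)| *
        (Real.sqrt (1 - u ^ 2) + Real.sqrt (1 - v ^ 2)) = |v - u| * |v + u| := by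
      rw [← abs_mul, ← h3, abs_mul]
      congr 1
      rw [abs_of_nonneg (by linarith)]
    have h5 : |v + u| ≤ 1 := by
      refine (abs_add_le _ _).trans ?_
      linarith
    have h6 : |Real.sqrt (1 - u ^ 2) - Real.sqrt (1 - v ^ 2)| ≤
        |Real.sqrt (1 - u ^ 2) - Real.sqrt (1 - v ^ 2)| *
        (Real.sqrt (1 - u ^ 2) + Real.sqrt (1 - v ^ 2)) := by
      have := abs_nonneg (Real.sqrt (1 - u ^ 2) - Real.sqrt (1 - v ^ 2))
      nlinarith
    have h7 : |v - u| * |v + u| ≤ |v - u| * 1 := by gcongr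
    rw [abs_sub_comm v u] at h7
    rw [abs_sub_comm v u] at h4
    linarith
  linarith

namespace Blocks

variable {α : ℝ} (b : Blocks α)

/-- every point of the `n`-th interval is within `ℓ n` of a point of the block. -/
lemma exists_near (n : ℕ) (t : ℝ) (h1 : b.τ n ≤ t) (h2 : t ≤ 3 / 2 * b.τ n) :
    ∃ p : ℕ, p < b.N n ∧ |t - b.y n p| ≤ b.ℓ n := by
  have hℓ := b.ℓ_pos n
  set u := (t - b.τ n) / b.ℓ n with hu
  have hu0 : 0 ≤ u := div_nonneg (by linarith) hℓ.le
  have huN : u ≤ b.N n := by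
    rw [hu, div_le_iff₀ hℓ, b.N_mul_ℓ]; linarith
  have ht : t = b.τ n + u * b.ℓ n := by rw [hu]; field_simp; ring
  by_cases h : u < b.N n
  · refine ⟨⌊u⌋₊, ?_, ?_⟩
    · exact (Nat.floor_lt hu0).2 h
    · have h3 := Nat.floor_le hu0
      have h4 := Nat.lt_floor_add_one u
      have h5 : t - b.y n ⌊u⌋₊ = (u - ⌊u⌋₊) * b.ℓ n := by rw [y, ht]; ring
      rw [h5, abs_mul, abs_of_pos hℓ, abs_of_nonneg (by linarith)]
      nlinarith
  · have h3 : u = b.N n := le_antisymm huN (not_lt.1 h)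
    have hN := b.N_pos n
    refine ⟨b.N n - 1, by omega, ?_⟩
    have h5 : t - b.y n (b.N n - 1) = b.ℓ n := by
      rw [y, ht, h3, Nat.cast_sub hN]; push_cast; ring
    rw [h5, abs_of_pos hℓ]

lemma exists_eta (Q : ℕ) : ∃ η : ℝ, 0 < η ∧ ∀ n < Q, η ≤ b.ℓ n := by
  induction Q with
  | zero => exact ⟨1, one_pos, fun n hn => absurd hn (Nat.not_lt_zero n)⟩
  | succ Q ih =>
    obtain ⟨η, hη, h⟩ := ih
    refine ⟨min η (b.ℓ Q), lt_min hη (b.ℓ_pos Q), fun n hn => ?_⟩
    rcases Nat.lt_succ_iff_lt_or_eq.1 hn with h2 | rfl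
    · exact (min_le_left _ _).trans (h n h2)
    · exact min_le_right _ _

/-- the angular intervals -/
noncomputable def lo (n : ℕ) : ℝ := Real.arcsin (b.τ n)

/-- the angular intervals -/
noncomputable def hi (n : ℕ) : ℝ := Real.arcsin (3 / 2 * b.τ n)

lemma lo_pos (n : ℕ) : 0 < b.lo n := Real.arcsin_pos.2 (b.τ_pos n)

lemma hi_le (n : ℕ) : b.hi n ≤ Real.pi / 2 := Real.arcsin_le_pi_div_two _

lemma hi_sub_lo (n : ℕ) : b.τ n / 2 ≤ b.hi n - b.lo n := by
  have h1 := b.τ_pos n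
  have h2 := b.τ_le n
  have hle : b.lo n ≤ b.hi n := Real.monotone_arcsin (by linarith)
  have h3 : Real.sin (b.hi n) - Real.sin (b.lo n) ≤ b.hi n - b.lo n := by
    have h4 : |Real.sin (b.hi n) - Real.sin (b.lo n)| ≤ |b.hi n - b.lo n| := by
      have := Real.lipschitzWith_sin.dist_le_mul (b.hi n) (b.lo n)
      rw [Real.dist_eq, Real.dist_eq] at this
      simpa using this
    rw [abs_of_nonneg (by linarith : 0 ≤ b.hi n - b.lo n)] at h4
    exact (le_abs_self _).trans h4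
  rw [hi, lo, Real.sin_arcsin (by linarith) (by linarith),
    Real.sin_arcsin (by linarith) (by linarith)] at h3
  rw [hi, lo]
  linarith

lemma sin_mem (n : ℕ) (θ : ℝ) (h : θ ∈ Icc (b.lo n) (b.hi n)) :
    b.τ n ≤ Real.sin θ ∧ Real.sin θ ≤ 3 / 2 * b.τ n ∧ 0 < θ ∧ θ ≤ Real.pi / 2 := by
  have h1 := b.τ_pos n
  have h2 := b.τ_le n
  have h3 := b.lo_pos n
  have h4 := b.hi_le n
  have hpi := Real.pi_pos
  have e1 : Real.sin (b.lo n) = b.τ n := Real.sin_arcsin (by linarith) (by linarith)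
  have e2 : Real.sin (b.hi n) = 3 / 2 * b.τ n := Real.sin_arcsin (by linarith) (by linarith)
  refine ⟨?_, ?_, by linarith [h.1], h.2.trans h4⟩
  · rw [← e1]
    exact Real.sin_le_sin_of_le_of_le_pi_div_two (by linarith) (h.2.trans h4) h.1
  · rw [← e2]
    exact Real.sin_le_sin_of_le_of_le_pi_div_two (by linarith [h.1]) h4 h.2

/-- minorant -/
noncomputable def g (Q : ℕ) (θ : ℝ) : ℝ :=
  ∑ n ∈ Finset.range Q, (Icc (b.lo n) (b.hi n)).indicator (fun _ => (3 * b.ℓ n) ^ (-α)) θ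

lemma g_integral (Q : ℕ) :
    IntervalIntegrable (b.g Q) MeasureTheory.volume 0 (2 * Real.pi) ∧
      ∑ n ∈ Finset.range Q, b.τ n / 2 * (3 * b.ℓ n) ^ (-α) ≤
        ∫ θ in (0 : ℝ)..2 * Real.pi, b.g Q θ := by
  have hpi := Real.pi_pos
  have hint : ∀ n, MeasureTheory.IntegrableOn
      ((Icc (b.lo n) (b.hi n)).indicator (fun _ : ℝ => (3 * b.ℓ n) ^ (-α)))
      (Ioc 0 (2 * Real.pi)) MeasureTheory.volume := by
    intro n
    refine MeasureTheory.IntegrableOn.indicator ?_ measurableSet_Icc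
    exact MeasureTheory.integrableOn_const measure_Ioc_lt_top.ne
  have hval : ∀ n, b.τ n / 2 * (3 * b.ℓ n) ^ (-α) ≤ ∫ θ in Ioc 0 (2 * Real.pi),
      (Icc (b.lo n) (b.hi n)).indicator (fun _ : ℝ => (3 * b.ℓ n) ^ (-α)) θ := by
    intro n
    rw [MeasureTheory.setIntegral_indicator measurableSet_Icc]
    have hsub : Ioc 0 (2 * Real.pi) ∩ Icc (b.lo n) (b.hi n) = Icc (b.lo n) (b.hi n) := by
      rw [inter_eq_right]
      intro θ hθ
      have := b.lo_pos n
      have := b.hi_le n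
      exact ⟨by linarith [hθ.1], by linarith [hθ.2]⟩
    have h1 := b.hi_sub_lo n
    have h2 := b.τ_pos n
    have h3 := b.ℓ_pos n
    rw [hsub, MeasureTheory.setIntegral_const, Real.volume_real_Icc_of_le (by linarith), smul_eq_mul]
    gcongr
  constructor
  · rw [intervalIntegrable_iff_integrableOn_Ioc_of_le (by positivity)]
    exact MeasureTheory.integrable_finsetSum _ fun n _ => hint n
  · rw [intervalIntegral.integral_of_le (by positivity)]
    have : ∫ θ in Ioc 0 (2 * Real.pi), b.g Q θ = ∑ n ∈ Finset.range Q,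
        ∫ θ in Ioc 0 (2 * Real.pi),
          (Icc (b.lo n) (b.hi n)).indicator (fun _ : ℝ => (3 * b.ℓ n) ^ (-α)) θ :=
      MeasureTheory.integral_finsetSum _ fun n _ => hint n
    rw [this]
    exact Finset.sum_le_sum fun n _ => hval n

lemma g_le (hα : 0 < α) (Q : ℕ) (r θ : ℝ) (η : ℝ) (hη : ∀ n < Q, η ≤ b.ℓ n) (hr1 : 1 - η < r)
    (hr0 : 0 < r) (hr2 : r < 1) :
    b.g Q θ ≤ 0 ∨ ∃ e ∈ b.config.E, b.g Q θ ≤ ‖circleMap 0 r θ - e‖ ^ (-α) := by
  by_cases h : ∃ n, n < Q ∧ θ ∈ Icc (b.lo n) (b.hi n)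
  · right
    obtain ⟨n, hnQ, hθ⟩ := h
    obtain ⟨h1, h2, h3, h4⟩ := b.sin_mem n θ hθ
    have hg : b.g Q θ = (3 * b.ℓ n) ^ (-α) := by
      rw [g, Finset.sum_eq_single n]
      · rw [indicator_of_mem hθ]
      · intro m _ hmn
        rw [indicator_of_notMem]
        intro hm
        obtain ⟨h5, h6, -, -⟩ := b.sin_mem m θ hm
        rcases lt_or_gt_of_ne hmn with h | h
        · have := b.τ_lt m n h
          have := b.τ_pos m
          linarith
        · have := b.τ_lt n m h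
          have := b.τ_pos n
          linarith
      · intro h; exact absurd (Finset.mem_range.2 hnQ) h
    obtain ⟨p, hp, hpy⟩ := b.exists_near n (Real.sin θ) h1 h2
    refine ⟨pt (b.y n p), b.config.ζ_mem_E ⟨n, ⟨p, hp⟩⟩, ?_⟩
    rw [hg]
    have hy := b.y_lt_one n p hp
    have hτ := b.τ_pos n
    have hτ2 := b.τ_le n
    have hcirc : circleMap 0 1 θ = pt (Real.sin θ) := by
      rw [circleMap_zero, pt]
      apply Complex.ext
      · have hcos : Real.cos θ = Real.sqrt (1 - Real.sin θ ^ 2) :=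
          Real.cos_eq_sqrt_one_sub_sin_sq (by linarith [Real.pi_pos]) h4
        rw [← hcos]
        simp [Complex.exp_ofReal_mul_I_re]
      · simp [Complex.exp_ofReal_mul_I_im]
    have hd1 : ‖circleMap 0 r θ - circleMap 0 1 θ‖ = 1 - r := by
      have : circleMap 0 r θ - circleMap 0 1 θ = ((r - 1 : ℝ) : ℂ) * circleMap 0 1 θ := by
        simp only [circleMap_zero]
        push_cast; ring
      rw [this, norm_mul, norm_circleMap_zero, abs_one, mul_one, Complex.norm_real,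
        Real.norm_eq_abs, abs_sub_comm, abs_of_pos (by linarith)]
    have hd2 : ‖circleMap 0 1 θ - pt (b.y n p)‖ ≤ 2 * b.ℓ n := by
      rw [hcirc]
      refine (norm_pt_sub _ _ ?_ ?_).trans (by linarith)
      · rw [abs_of_pos (by linarith)]; linarith
      · rw [abs_of_pos hy.1]; exact hy.2
    have hd3 : ‖circleMap 0 r θ - pt (b.y n p)‖ ≤ 3 * b.ℓ n := by
      have : circleMap 0 r θ - pt (b.y n p) =
          (circleMap 0 r θ - circleMap 0 1 θ) + (circleMap 0 1 θ - pt (b.y n p)) := by ring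
      rw [this]
      refine (norm_add_le _ _).trans ?_
      have := hη n hnQ
      rw [hd1]
      linarith
    have hpos : 0 < ‖circleMap 0 r θ - pt (b.y n p)‖ := by
      rw [norm_pos_iff, sub_ne_zero]
      intro h
      have h5 := congrArg norm h
      rw [norm_circleMap_zero, abs_of_pos hr0, norm_pt _ (by nlinarith [hy.1, hy.2])] at h5
      linarith
    exact Real.rpow_le_rpow_of_nonpos hpos hd3 (by linarith)
  · left
    push Not at h
    rw [g]
    refine le_of_eq (Finset.sum_eq_zero fun n hn => ?_)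
    rw [indicator_of_notMem (h n (Finset.mem_range.1 hn))]

/-- The set of the blocks is not a zero set if `∑ τ n ℓ n ^ (-α) = ∞`. -/
lemma not_zeroSet (hα : 0 < α) (hdiv : ¬ Summable (fun n => b.τ n * b.ℓ n ^ (-α))) :
    b.config.E ∉ ZeroSets α := by
  refine PK.not_zeroSet hα fun A => ?_
  have hnn : ∀ n, 0 ≤ b.τ n * b.ℓ n ^ (-α) := fun n => by
    have := b.τ_pos n
    have := b.ℓ_pos n
    positivity
  have ht := (not_summable_iff_tendsto_nat_atTop_of_nonneg hnn).1 hdiv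
  obtain ⟨Q, hQ⟩ := (ht.eventually_ge_atTop (A * (2 * 3 ^ α))).exists
  obtain ⟨η, hη, hηQ⟩ := b.exists_eta Q
  have hint := b.g_integral Q
  refine ⟨b.g Q, min η (1 / 2), lt_min hη (by norm_num), hint.1, ?_, ?_⟩
  · refine le_trans ?_ hint.2
    have h3 : ∀ n, b.τ n / 2 * (3 * b.ℓ n) ^ (-α) =
        (b.τ n * b.ℓ n ^ (-α)) * (2 * 3 ^ α)⁻¹ := by
      intro n
      rw [Real.mul_rpow (by norm_num) (b.ℓ_pos n).le, Real.rpow_neg (by norm_num : (0 : ℝ) ≤ 3)]
      have : (0 : ℝ) < 3 ^ α := by positivity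
      field_simp
    simp only [h3]
    rw [← Finset.sum_mul, ← div_eq_mul_inv, le_div_iff₀ (by positivity)]
    exact hQ
  · intro r hr1 hr2 θ _
    have h4 : min η (1 / 2) ≤ 1 / 2 := min_le_right _ _
    refine b.g_le hα Q r θ (min η (1 / 2)) (fun n hn => (min_le_left _ _).trans (hηQ n hn)) hr1
      (by linarith) hr2

end Blocks

end Pool.Agent.E8helper81.PK
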