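import Mathlib
import Pool.Agent.E8helper81.PK.Div

/-! Existence of the blocks. -/

set_option autoImplicit false

namespace Pool.Agent.E8helper81.PK

open Filter Topology Metric Set

lemma exp_three_ge : (16 : ℝ) ≤ Real.exp 3 := by
  have h1 := Real.exp_one_gt_d9
  have h2 : Real.exp 3 = Real.exp 1 ^ 3 := by rw [← Real.exp_nat_mul]; norm_num
  have h3 : (2.7 : ℝ) ≤ Real.exp 1 := by linarith
  have h4 : (2.7 : ℝ) ^ 3 ≤ Real.exp 1 ^ 3 := by gcongr
  rw [h2]
  refine le_trans ?_ h4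
  norm_num

lemma exists_blocks {α : ℝ} (h0 : 0 < α) (h1 : α < 1) :
    ∃ b : Blocks α, ¬ Summable (fun n => b.τ n * b.ℓ n ^ (-α)) := by
  obtain ⟨β, hβ⟩ : ∃ β : ℝ, β = 1 / α := ⟨_, rfl⟩
  have hβ1 : 1 < β := by rw [hβ, one_lt_div h0]; exact h1
  have hβα : β * α = 1 := by rw [hβ]; field_simp
  obtain ⟨c, hc⟩ : ∃ c : ℝ, c = 3 * (β - 1) := ⟨_, rfl⟩
  have hc0 : 0 < c := by rw [hc]; linarith
  -- the sum
  have hsum : Summable (fun n : ℕ => 1 / ((n : ℝ) + 1) ^ β) := by
    have h2 := (Real.summable_one_div_nat_add_rpow 1 β).2 hβ1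
    refine h2.congr fun n => ?_
    rw [abs_of_pos (by positivity)]
  obtain ⟨S, hS⟩ : ∃ S : ℝ, S = ∑' n : ℕ, 1 / ((n : ℝ) + 1) ^ β := ⟨_, rfl⟩
  have hS0 : 0 ≤ S := by rw [hS]; exact tsum_nonneg fun n => by positivity
  obtain ⟨M, hM⟩ : ∃ M : ℝ, M = 128 * S + 512 * (1 + c) + 128 := ⟨_, rfl⟩
  have hM0 : 0 < M := by rw [hM]; positivity
  have hM1 : 128 ≤ M := by rw [hM]; nlinarith
  have hM2 : 128 * S ≤ M := by rw [hM]; nlinarith
  have hM3 : 512 * (1 + c) ≤ M := by rw [hM]; nlinarith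
  have hev1 : ∀ᶠ x : ℝ in atTop, 192 ≤ Real.exp (c * x) := by
    have h2 : Tendsto (fun x : ℝ => Real.exp (c * x)) atTop atTop :=
      Real.tendsto_exp_atTop.comp (tendsto_id.const_mul_atTop hc0)
    exact h2.eventually_ge_atTop 192
  have hev2 : ∀ᶠ x : ℝ in atTop, 2 * M * x ^ β ≤ Real.exp (c * x) := by
    have h2 := tendsto_rpow_mul_exp_neg_mul_atTop_nhds_zero β c hc0
    have h3 : ∀ᶠ x : ℝ in atTop, x ^ β * Real.exp (-c * x) < 1 / (2 * M) :=
      h2.eventually_lt_const (by positivity)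
    filter_upwards [h3] with x hx
    have h4 : Real.exp (-c * x) = (Real.exp (c * x))⁻¹ := by
      rw [← Real.exp_neg]; congr 1; ring
    rw [h4, ← div_eq_mul_inv, div_lt_div_iff₀ (Real.exp_pos _) (by positivity)] at hx
    linarith
  obtain ⟨x₀, hx₀⟩ := (hev1.and hev2).exists_forall_of_atTop
  obtain ⟨q₀, hq₀⟩ := exists_nat_ge x₀
  obtain ⟨q, hq⟩ : ∃ q : ℕ, q = q₀ + 1 := ⟨_, rfl⟩
  obtain ⟨k, hk⟩ : ∃ k : ℕ → ℝ, k = fun n : ℕ => (n : ℝ) + (q : ℝ) := ⟨_, rfl⟩
  have hkn : ∀ n : ℕ, k n = (n : ℝ) + (q : ℝ) := fun n => by rw [hk]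
  have hk1 : ∀ n : ℕ, (n : ℝ) + 1 ≤ k n := by
    intro n
    rw [hkn, hq]
    push_cast
    have : (0 : ℝ) ≤ q₀ := by positivity
    linarith
  have hk2 : ∀ n, 1 ≤ k n := by
    intro n
    have := hk1 n
    have : (0 : ℝ) ≤ n := by positivity
    linarith
  have hk0 : ∀ n, 0 < k n := fun n => by linarith [hk2 n]
  have hkx : ∀ n, x₀ ≤ k n := by
    intro n
    rw [hkn, hq]
    push_cast
    have : (0 : ℝ) ≤ n := by positivity
    linarith
  have hk192 : ∀ n, 192 ≤ Real.exp (c * k n) := fun n => (hx₀ _ (hkx n)).1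
  have hkM : ∀ n, 2 * M * k n ^ β ≤ Real.exp (c * k n) := fun n => (hx₀ _ (hkx n)).2
  have hkβ : ∀ n, k n ≤ k n ^ β := by
    intro n
    calc k n = k n ^ (1 : ℝ) := (Real.rpow_one _).symm
      _ ≤ k n ^ β := Real.rpow_le_rpow_of_exponent_le (hk2 n) hβ1.le
  have hkβ1 : ∀ n, 1 ≤ k n ^ β := fun n => (hk2 n).trans (hkβ n)
  -- the data
  obtain ⟨τ, hτ⟩ : ∃ τ : ℕ → ℝ, ∀ n, τ n = Real.exp (-(3 * k n)) := ⟨_, fun n => rfl⟩
  obtain ⟨s, hs⟩ : ∃ s : ℕ → ℝ, ∀ n, s n = Real.exp (-(3 * β * k n)) := ⟨_, fun n => rfl⟩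
  obtain ⟨x, hx⟩ : ∃ x : ℕ → ℝ, ∀ n, x n = Real.exp (c * k n) / (2 * M * k n ^ β) :=
    ⟨_, fun n => rfl⟩
  have hτ0 : ∀ n, 0 < τ n := fun n => by rw [hτ]; exact Real.exp_pos _
  have hs0 : ∀ n, 0 < s n := fun n => by rw [hs]; exact Real.exp_pos _
  have hτs : ∀ n, τ n = s n * Real.exp (c * k n) := by
    intro n
    rw [hτ, hs, ← Real.exp_add]
    congr 1
    rw [hc]; ring
  have hx1 : ∀ n, 1 ≤ x n := by
    intro n
    have := hkβ1 n
    rw [hx, one_le_div (by positivity)]
    exact hkM n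
  have hxN1 : ∀ n, (⌊x n⌋₊ : ℝ) ≤ x n := fun n => Nat.floor_le (by linarith [hx1 n])
  have hN1 : ∀ n, 1 ≤ ⌊x n⌋₊ := fun n => Nat.one_le_floor_iff _ |>.2 (hx1 n)
  have hN1' : ∀ n, (1 : ℝ) ≤ ⌊x n⌋₊ := fun n => by exact_mod_cast hN1 n
  have hxN2 : ∀ n, x n / 2 ≤ (⌊x n⌋₊ : ℝ) := by
    intro n
    have h2 := Nat.lt_floor_add_one (x n)
    have h3 := hN1' n
    linarith
  have hspow : ∀ n, s n ^ α = τ n := by
    intro n
    rw [hs, hτ, ← Real.exp_mul]
    congr 1
    have : -(3 * β * k n) * α = -(3 * k n) * (β * α) := by ring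
    rw [this, hβα, mul_one]
  have hxe : ∀ n, x n * (2 * s n * (M * k n ^ β)) = τ n := by
    intro n
    have := hkβ1 n
    rw [hx, hτs]
    field_simp
  let b : Blocks α :=
    { τ := τ
      s := s
      B := fun n => M * k n ^ β
      N := fun n => ⌊x n⌋₊
      τ_pos := hτ0
      τ_le := by
        intro n
        rw [hτ, Real.exp_neg, one_div]
        refine inv_anti₀ (by norm_num) ?_
        refine exp_three_ge.trans (Real.exp_le_exp.2 ?_)
        linarith [hk2 n]
      τ_lt := by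
        intro n m hnm
        have h2 : k n + 1 ≤ k m := by
          rw [hkn, hkn]
          have : ((n + 1 : ℕ) : ℝ) ≤ m := by exact_mod_cast hnm
          push_cast at this
          linarith
        have h3 : τ m ≤ τ n * (Real.exp 3)⁻¹ := by
          rw [hτ, hτ, ← Real.exp_neg, ← Real.exp_add]
          refine Real.exp_le_exp.2 ?_
          linarith
        refine h3.trans ?_
        rw [div_eq_mul_inv]
        refine mul_le_mul_of_nonneg_left ?_ (hτ0 n).le
        refine inv_anti₀ (by norm_num) ?_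
        linarith [exp_three_ge]
      τ_lim := by
        have h2 : Tendsto k atTop atTop := by
          rw [hk]
          exact tendsto_atTop_add_const_right _ _ tendsto_natCast_atTop_atTop
        have h3 : Tendsto (fun n => Real.exp (-(3 * k n))) atTop (𝓝 0) :=
          Real.tendsto_exp_neg_atTop_nhds_zero.comp (h2.const_mul_atTop (by norm_num))
        exact h3.congr fun n => (hτ n).symm
      s_pos := hs0
      s_le := by
        intro n
        rw [hτs]
        have := hk192 n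
        have := hs0 n
        nlinarith
      s_pow := hspow
      N_pos := hN1
      B_ge := by
        intro n
        have := hkβ1 n
        nlinarith
      B_mul := by
        intro n
        have h2 := hN1' n
        have h3 := hxe n
        have h4 := hs0 n
        have h5 := hkβ1 n
        rw [le_div_iff₀ (by positivity), ← h3]
        have h6 : M * k n ^ β * s n * (2 * (⌊x n⌋₊ : ℝ)) =
          (⌊x n⌋₊ : ℝ) * (2 * s n * (M * k n ^ β)) := by ring
        rw [h6]
        exact mul_le_mul_of_nonneg_right (hxN1 n) (by positivity)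
      B_sum := by
        refine Summable.of_nonneg_of_le (fun n => ?_) (fun n => ?_) (hsum.mul_left M⁻¹)
        · have := hkβ1 n
          positivity
        · have h2 : ((n : ℝ) + 1) ^ β ≤ k n ^ β :=
            Real.rpow_le_rpow (by positivity) (hk1 n) (by linarith)
          rw [one_div, mul_inv, one_div]
          gcongr
      B_tsum := by
        have hterm : ∀ n : ℕ, 1 / (M * k n ^ β) ≤ M⁻¹ * (1 / ((n : ℝ) + 1) ^ β) := by
          intro n
          have h2 : ((n : ℝ) + 1) ^ β ≤ k n ^ β :=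
            Real.rpow_le_rpow (by positivity) (hk1 n) (by linarith)
          rw [one_div, mul_inv, one_div]
          gcongr
        have h3 : Summable (fun n : ℕ => 1 / (M * k n ^ β)) := by
          refine Summable.of_nonneg_of_le (fun n => ?_) hterm (hsum.mul_left M⁻¹)
          have := hkβ1 n
          positivity
        refine (Summable.tsum_le_tsum hterm h3 (hsum.mul_left M⁻¹)).trans ?_
        rw [tsum_mul_left, ← hS, inv_mul_le_iff₀ hM0]
        linarith
      B_log := by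
        intro n
        have h2 : Real.log (⌊x n⌋₊ : ℝ) ≤ c * k n := by
          have h3 : (⌊x n⌋₊ : ℝ) ≤ Real.exp (c * k n) := by
            refine (hxN1 n).trans ?_
            rw [hx]
            have h4 := hkβ1 n
            refine div_le_self (Real.exp_pos _).le ?_
            nlinarith
          have h4 := Real.log_le_log (by linarith [hN1' n]) h3
          rwa [Real.log_exp] at h4
        have h5 := hkβ n
        have h6 := hkβ1 n
        have h7 : 0 < M * k n ^ β := by positivity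
        rw [div_mul_eq_mul_div, div_le_div_iff₀ h7 (by norm_num)]
        have h8 : 512 * (1 + c) * k n ^ β ≤ M * k n ^ β := by gcongr
        have h9 : c * k n ≤ c * k n ^ β := by gcongr
        nlinarith }
  refine ⟨b, fun hsm => ?_⟩
  -- the lower bound
  have hlow : ∀ n : ℕ, (2 * M) ^ (-α) * (1 / ((n : ℝ) + q)) ≤ b.τ n * b.ℓ n ^ (-α) := by
    intro n
    have h2 : b.τ n = τ n := rfl
    have h3 : b.ℓ n = τ n / (2 * (⌊x n⌋₊ : ℝ)) := rfl
    have h4 : b.ℓ n ≤ s n * (2 * M * k n ^ β) := by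
      have h5 := hN1' n
      rw [h3, div_le_iff₀ (by positivity), ← hxe n]
      have h6 := hxN2 n
      have h7 := hs0 n
      have h8 := hkβ1 n
      have h9 : x n * (2 * s n * (M * k n ^ β)) ≤
          (2 * (⌊x n⌋₊ : ℝ)) * (2 * s n * (M * k n ^ β)) := by
        refine mul_le_mul_of_nonneg_right (by linarith) (by positivity)
      refine h9.trans (le_of_eq (by ring))
    have h5 := b.ℓ_pos n
    have h6 := hs0 n
    have h7 := hk0 n
    have h8 : (s n * (2 * M * k n ^ β)) ^ (-α) ≤ b.ℓ n ^ (-α) :=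
      Real.rpow_le_rpow_of_nonpos h5 h4 (by linarith)
    have h9 : (s n * (2 * M * k n ^ β)) ^ (-α) = (τ n)⁻¹ * ((2 * M) ^ (-α) * (k n)⁻¹) := by
      have h10 : 0 ≤ k n ^ β := by positivity
      rw [Real.mul_rpow h6.le (by positivity), Real.mul_rpow (by positivity) h10,
        Real.rpow_neg h6.le, hspow, ← Real.rpow_mul h7.le, mul_neg, hβα, Real.rpow_neg_one]
    rw [h9] at h8
    rw [h2, ← hkn, one_div]
    have h10 := hτ0 n
    calc (2 * M) ^ (-α) * (k n)⁻¹ = τ n * ((τ n)⁻¹ * ((2 * M) ^ (-α) * (k n)⁻¹)) := by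
          field_simp
      _ ≤ τ n * b.ℓ n ^ (-α) := by gcongr
  have h2 : Summable (fun n : ℕ => (2 * M) ^ (-α) * (1 / ((n : ℝ) + q))) :=
    Summable.of_nonneg_of_le (fun n => by positivity) hlow hsm
  have h3 : (2 * M) ^ (-α) ≠ 0 := by positivity
  rw [summable_mul_left_iff h3] at h2
  have h4 : Summable (fun n : ℕ => 1 / (n : ℝ)) := by
    rw [← summable_nat_add_iff q]
    refine h2.congr fun n => ?_
    push_cast
    rfl
  exact Real.not_summable_one_div_natCast h4

end Pool.Agent.E8helper81.PK
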