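import Mathlib
import Pool.Agent.E8helper81.PK.Est

/-! The peak function of a configuration. -/

set_option autoImplicit false

namespace Pool.Agent.E8helper81.PK

open Complex Filter Topology Metric Set

variable {α : ℝ} {ι : Type} (c : Config α ι)

namespace Config

lemma near_tsum (z : ℂ) (b : ℝ) (hb : 0 ≤ b) :
    Summable (fun j => if ‖z - c.ζ j‖ < 64 * c.s j then b else 0) ∧
      ∑' j, (if ‖z - c.ζ j‖ < 64 * c.s j then b else 0) ≤ b := by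
  classical
  by_cases h : ∃ k, ‖z - c.ζ k‖ < 64 * c.s k
  · obtain ⟨k, hk⟩ := h
    have h2 : (fun j => if ‖z - c.ζ j‖ < 64 * c.s j then b else 0) =
        fun j => if j = k then b else 0 := by
      funext j
      by_cases hj : j = k
      · subst hj; simp [hk]
      · have : ¬ ‖z - c.ζ j‖ < 64 * c.s j := fun h => hj (c.uniq z j k h hk)
        simp [hj, this]
    rw [h2]
    exact ⟨(hasSum_ite_eq k b).summable, (tsum_ite_eq k (fun _ => b)).le⟩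
  · push Not at h
    have h2 : (fun j => if ‖z - c.ζ j‖ < 64 * c.s j then b else 0) = fun _ => 0 := by
      funext j
      rw [if_neg (not_lt.2 (h j))]
    rw [h2]
    exact ⟨summable_zero, by simpa using hb⟩

variable (h0 : 0 < α) (h1 : α < 1)
include h0 h1

lemma t_sub (j : ι) (z₁ z₂ : ℂ) (hz₁ : ‖z₁‖ ≤ 1) (hz₂ : ‖z₂‖ ≤ 1) (hE₁ : z₁ ≠ c.ζ j)
    (hE₂ : z₂ ≠ c.ζ j) (hd : ‖z₁ - z₂‖ ≤ ‖z₁ - c.ζ j‖ / 2) :
    ‖c.t j z₁ - c.t j z₂‖ ≤ ‖z₁ - z₂‖ * (1 / c.m j + 2 * ‖z₁ - c.ζ j‖ ^ (α - 1)) *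
      (‖c.t j z₁‖ * ‖c.t j z₂‖) := by
  have hb1 : blk α (c.m j) (c.w j z₁) ≠ 0 :=
    blk_ne_zero α _ h0 h1 (c.m_pos j) _ (c.w_ne j z₁ hE₁) (c.w_re j z₁ hz₁)
  have hb2 : blk α (c.m j) (c.w j z₂) ≠ 0 :=
    blk_ne_zero α _ h0 h1 (c.m_pos j) _ (c.w_ne j z₂ hE₂) (c.w_re j z₂ hz₂)
  have h2 : c.t j z₁ - c.t j z₂ =
      (blk α (c.m j) (c.w j z₂) - blk α (c.m j) (c.w j z₁)) * (c.t j z₁ * c.t j z₂) := by
    unfold t
    field_simp
  have hww : ‖c.w j z₁ - c.w j z₂‖ = ‖z₁ - z₂‖ := by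
    have : c.w j z₁ - c.w j z₂ = (starRingEnd ℂ) (c.ζ j) * (z₂ - z₁) := by
      unfold w; ring
    rw [this, norm_mul, RCLike.norm_conj, c.norm_ζ, one_mul, norm_sub_rev]
  have h3 : ‖blk α (c.m j) (c.w j z₂) - blk α (c.m j) (c.w j z₁)‖ ≤
      ‖z₁ - z₂‖ * (1 / c.m j + 2 * ‖z₁ - c.ζ j‖ ^ (α - 1)) := by
    have h4 : blk α (c.m j) (c.w j z₂) - blk α (c.m j) (c.w j z₁) =
        -((c.w j z₁ - c.w j z₂) / (c.m j : ℂ)) -
          (c.w j z₁ ^ (α : ℂ) - c.w j z₂ ^ (α : ℂ)) := by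
      unfold blk; ring
    rw [h4]
    refine (norm_sub_le _ _).trans ?_
    rw [norm_neg, norm_div, hww, Complex.norm_real, Real.norm_of_nonneg (c.m_pos j).le]
    have h5 := cpow_sub_le α h0 h1 (c.w j z₁) (c.w j z₂) (c.w_re j z₁ hz₁) (c.w_re j z₂ hz₂)
      (c.w_ne j z₁ hE₁) (by rw [hww, c.norm_w]; exact hd)
    rw [hww, c.norm_w] at h5
    calc ‖z₁ - z₂‖ / c.m j + ‖c.w j z₁ ^ (α : ℂ) - c.w j z₂ ^ (α : ℂ)‖
        ≤ ‖z₁ - z₂‖ / c.m j + 2 * ‖z₁ - c.ζ j‖ ^ (α - 1) * ‖z₁ - z₂‖ := by gcongr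
      _ = _ := by ring
  rw [h2, norm_mul, norm_mul]
  gcongr

/-- The main estimate. -/
lemma H_sub_le : ∃ K : ℝ, 0 < K ∧ ∀ z₁ z₂ : ℂ, ‖z₁‖ ≤ 1 → ‖z₂‖ ≤ 1 → z₁ ∉ c.E → z₂ ∉ c.E →
    ∀ δ : ℝ, 0 < δ → (∀ e ∈ c.E, δ ≤ ‖z₁ - e‖) → ‖z₁ - z₂‖ ≤ δ / 2 →
      ‖c.H z₁ - c.H z₂‖ ≤ K * (δ ^ (α - 1) * ‖z₁ - z₂‖ * (‖c.H z₁‖ * ‖c.H z₂‖)) := by
  have hκ := κ_pos h0 h1
  have hκ' := κ'_pos h0 h1
  refine ⟨2 * ((κ' α)⁻¹ ^ 2) + (54 * (κ' α)⁻¹ ^ 2 * (3 / 8) + 66 * (κ α)⁻¹ ^ 2), by positivity, ?_⟩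
  intro z₁ z₂ hz₁ hz₂ hE₁ hE₂ δ hδ hdist hclose
  set D := ‖z₁ - z₂‖ with hD
  set hh := ‖c.H z₁‖ * ‖c.H z₂‖ with hhh
  set P := δ ^ (α - 1) * D with hP
  have hD0 : 0 ≤ D := norm_nonneg _
  have hδα : 0 < δ ^ (α - 1) := Real.rpow_pos_of_pos hδ _
  have hP0 : 0 ≤ P := by positivity
  have hone1 : 0 < ‖1 - z₁‖ := norm_pos_iff.2 (sub_ne_zero.2 (Ne.symm (c.mem_ne_one hE₁)))
  have hone2 : 0 < ‖1 - z₂‖ := norm_pos_iff.2 (sub_ne_zero.2 (Ne.symm (c.mem_ne_one hE₂)))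
  have hge1 := c.H_ge h0 h1 z₁ hz₁ hE₁
  have hge2 := c.H_ge h0 h1 z₂ hz₂ hE₂
  have hH1 : 0 ≤ ‖c.H z₁‖ := norm_nonneg _
  have hH2 : 0 ≤ ‖c.H z₂‖ := norm_nonneg _
  have hδ1 : δ ≤ ‖1 - z₁‖ := by
    have := hdist 1 c.one_mem_E
    rwa [norm_sub_rev] at this
  -- `1 / (‖1 - z₁‖ ‖1 - z₂‖) ≤ κ'⁻² hh`
  have hprod : 1 / (‖1 - z₁‖ * ‖1 - z₂‖) ≤ (κ' α)⁻¹ ^ 2 * hh := by
    rw [div_le_iff₀ (by positivity)]
    have h2 : κ' α * κ' α ≤ (‖c.H z₁‖ * ‖1 - z₁‖) * (‖c.H z₂‖ * ‖1 - z₂‖) :=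
      mul_le_mul hge1 hge2 hκ'.le (by positivity)
    have h3 : (κ' α)⁻¹ ^ 2 * (κ' α * κ' α) = 1 := by field_simp
    calc 1 = (κ' α)⁻¹ ^ 2 * (κ' α * κ' α) := h3.symm
      _ ≤ (κ' α)⁻¹ ^ 2 * ((‖c.H z₁‖ * ‖1 - z₁‖) * (‖c.H z₂‖ * ‖1 - z₂‖)) := by gcongr
      _ = (κ' α)⁻¹ ^ 2 * hh * (‖1 - z₁‖ * ‖1 - z₂‖) := by rw [hhh]; ring
  -- first term
  have hfirst : ‖(1 - z₁)⁻¹ - (1 - z₂)⁻¹‖ ≤ 2 * ((κ' α)⁻¹ ^ 2) * (P * hh) := by
    have hne1 : (1 : ℂ) - z₁ ≠ 0 := norm_pos_iff.1 hone1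
    have hne2 : (1 : ℂ) - z₂ ≠ 0 := norm_pos_iff.1 hone2
    have h2 : (1 - z₁)⁻¹ - (1 - z₂)⁻¹ = (z₁ - z₂) * (1 / ((1 - z₁) * (1 - z₂))) := by
      field_simp
      ring
    rw [h2, norm_mul, norm_div, norm_one, norm_mul]
    have h3 : δ ≤ 2 := by
      refine hδ1.trans ((norm_sub_le _ _).trans ?_)
      rw [norm_one]; linarith
    have h4 : (1 : ℝ) / 2 ≤ δ ^ (α - 1) := by
      calc (1 : ℝ) / 2 = 2 ^ (-1 : ℝ) := by rw [Real.rpow_neg_one]; norm_num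
        _ ≤ 2 ^ (α - 1) := Real.rpow_le_rpow_of_exponent_le (by norm_num) (by linarith)
        _ ≤ δ ^ (α - 1) := Real.rpow_le_rpow_of_nonpos hδ h3 (by linarith)
    have h5 : D ≤ 2 * P := by
      rw [hP]; nlinarith
    calc ‖z₁ - z₂‖ * (1 / (‖1 - z₁‖ * ‖1 - z₂‖)) ≤ (2 * P) * ((κ' α)⁻¹ ^ 2 * hh) := by
          refine mul_le_mul h5 hprod (by positivity) (by positivity)
      _ = _ := by ring
  -- the terms
  set B : ι → ℝ := fun j => 54 * (κ' α)⁻¹ ^ 2 * (P * hh) *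
      (4 * (if 64 * c.s j ≤ ‖z₁ - c.ζ j‖ then c.s j / ‖z₁ - c.ζ j‖ else 0) + c.m j) +
      (if ‖z₁ - c.ζ j‖ < 64 * c.s j then 66 * (κ α)⁻¹ ^ 2 * (P * hh) else 0) with hB
  have hhh0 : 0 ≤ hh := by positivity
  have hfar_nn : ∀ j, 0 ≤ (if 64 * c.s j ≤ ‖z₁ - c.ζ j‖ then c.s j / ‖z₁ - c.ζ j‖ else 0) := by
    intro j
    split_ifs
    · exact div_nonneg (c.s_pos j).le (norm_nonneg _)
    · exact le_rfl
  have hterm : ∀ j, ‖c.t j z₁ - c.t j z₂‖ ≤ B j := by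
    intro j
    have hne1 := c.mem_ne hE₁ j
    have hne2 := c.mem_ne hE₂ j
    set x := ‖z₁ - c.ζ j‖ with hx
    set y := ‖z₂ - c.ζ j‖ with hy
    have hx0 : 0 < x := norm_pos_iff.2 (sub_ne_zero.2 hne1)
    have hy0 : 0 < y := norm_pos_iff.2 (sub_ne_zero.2 hne2)
    have hδx : δ ≤ x := hdist _ (c.ζ_mem_E j)
    have hxy : x ≤ y + D := by
      have : z₁ - c.ζ j = (z₂ - c.ζ j) + (z₁ - z₂) := by ring
      rw [hx, this]; exact norm_add_le _ _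
    have hyx : y ≤ x + D := by
      have : z₂ - c.ζ j = (z₁ - c.ζ j) - (z₁ - z₂) := by ring
      rw [hy, this]; exact norm_sub_le _ _
    have hDx : D ≤ x / 2 := by linarith
    have hsub := c.t_sub h0 h1 j z₁ z₂ hz₁ hz₂ hne1 hne2 hDx
    have hm := c.m_pos j
    have hs := c.s_pos j
    have hxα : x ^ (α - 1) ≤ δ ^ (α - 1) := Real.rpow_le_rpow_of_nonpos hδ hδx (by linarith)
    have hxα0 : 0 < x ^ (α - 1) := Real.rpow_pos_of_pos hx0 _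
    by_cases hfar : 64 * c.s j ≤ x
    · -- far
      have hB1 : B j = 54 * (κ' α)⁻¹ ^ 2 * (P * hh) * (4 * (c.s j / x) + c.m j) := by
        rw [hB]
        simp only
        rw [if_pos hfar, if_neg (not_lt.2 hfar), add_zero]
      rw [hB1]
      have ht1 : ‖c.t j z₁‖ ≤ c.m j / x := (c.norm_t_le h0 h1 j z₁ hz₁ hne1).1
      have ht2 : ‖c.t j z₂‖ ≤ 2 * c.m j / x := by
        refine ((c.norm_t_le h0 h1 j z₂ hz₂ hne2).1).trans ?_
        rw [div_le_div_iff₀ hy0 hx0]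
        nlinarith
      have hmx : c.m j * x ^ (α - 1) ≤ 1 := by
        have h2 : c.m j ≤ x ^ (1 - α) :=
          Real.rpow_le_rpow hs.le (by linarith) (by linarith)
        have h3 : x ^ (1 - α) * x ^ (α - 1) = 1 := by
          rw [← Real.rpow_add hx0]; simp
        calc c.m j * x ^ (α - 1) ≤ x ^ (1 - α) * x ^ (α - 1) := by gcongr
          _ = 1 := h3
      have hfac : 1 / c.m j + 2 * x ^ (α - 1) ≤ 3 / c.m j := by
        rw [le_div_iff₀ hm]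
        have : (1 / c.m j + 2 * x ^ (α - 1)) * c.m j = 1 + 2 * (c.m j * x ^ (α - 1)) := by
          field_simp
        rw [this]; linarith
      have h36 : ‖1 - z₁‖ ≤ 6 * x ^ α := by
        have h2 : ‖1 - z₁‖ ≤ 4 * c.s j ^ α + x := by
          have h4 : (1 : ℂ) - z₁ = (1 - c.ζ j) - (z₁ - c.ζ j) := by ring
          rw [h4]
          refine (norm_sub_le _ _).trans ?_
          have := c.close_one j
          linarith
        have h3 : c.s j ^ α ≤ x ^ α := Real.rpow_le_rpow hs.le (by linarith) h0.le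
        have h4 : x ≤ 2 := by
          rw [hx]
          refine (norm_sub_le _ _).trans ?_
          rw [c.norm_ζ]; linarith
        have h5 : x ≤ 2 * x ^ α := by
          have h6 : x = x ^ (1 - α) * x ^ α := by rw [← Real.rpow_add hx0]; simp
          have h7 : x ^ (1 - α) ≤ 2 := by
            calc x ^ (1 - α) ≤ 2 ^ (1 - α) := Real.rpow_le_rpow hx0.le h4 (by linarith)
              _ ≤ 2 ^ (1 : ℝ) := Real.rpow_le_rpow_of_exponent_le (by norm_num) (by linarith)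
              _ = 2 := Real.rpow_one 2
          calc x = x ^ (1 - α) * x ^ α := h6
            _ ≤ 2 * x ^ α := by gcongr
        linarith
      -- `1 / x ≤ 6 δ ^ (α - 1) / ‖1 - z₁‖`
      have hinv : 1 / x ≤ 6 * δ ^ (α - 1) / ‖1 - z₁‖ := by
        rw [div_le_div_iff₀ hx0 hone1]
        have h2 : x ^ α = x * x ^ (α - 1) := by
          conv_rhs => rw [← Real.rpow_one x, ← Real.rpow_mul hx0.le, one_mul,
            ← Real.rpow_add hx0]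
          congr 1; ring
        calc 1 * ‖1 - z₁‖ ≤ 6 * x ^ α := by rw [one_mul]; exact h36
          _ = 6 * (x * x ^ (α - 1)) := by rw [h2]
          _ ≤ 6 * (x * δ ^ (α - 1)) := by gcongr
          _ = 6 * δ ^ (α - 1) * x := by ring
      have hfsb := c.far_sum_bound z₁ j hfar hE₁
      rw [if_pos hfar] at hfsb
      have h15 : 1 / ‖1 - z₁‖ ≤ 3 / 2 * (1 / ‖1 - z₂‖) := by
        have h2 : ‖1 - z₂‖ ≤ 3 / 2 * ‖1 - z₁‖ := by
          have h4 : (1 : ℂ) - z₂ = (1 - z₁) + (z₁ - z₂) := by ring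
          rw [h4]
          refine (norm_add_le _ _).trans ?_
          linarith
        rw [mul_one_div, div_le_div_iff₀ hone1 hone2]
        linarith
      calc ‖c.t j z₁ - c.t j z₂‖
          ≤ D * (1 / c.m j + 2 * x ^ (α - 1)) * (‖c.t j z₁‖ * ‖c.t j z₂‖) := hsub
        _ ≤ D * (3 / c.m j) * ((c.m j / x) * (2 * c.m j / x)) := by gcongr
        _ = 6 * D * (c.m j / x) * (1 / x) := by field_simp; ring
        _ ≤ 6 * D * (c.m j / x) * (6 * δ ^ (α - 1) / ‖1 - z₁‖) := by gcongr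
        _ = 36 * P * ((c.m j / x * ‖1 - z₁‖) * ((1 / ‖1 - z₁‖) * (1 / ‖1 - z₁‖))) := by
            rw [hP]; field_simp; ring
        _ ≤ 36 * P * ((4 * (c.s j / x) + c.m j) * ((1 / ‖1 - z₁‖) * (3 / 2 * (1 / ‖1 - z₂‖)))) := by
            gcongr
        _ = 54 * P * (4 * (c.s j / x) + c.m j) * (1 / (‖1 - z₁‖ * ‖1 - z₂‖)) := by
            field_simp; ring
        _ ≤ 54 * P * (4 * (c.s j / x) + c.m j) * ((κ' α)⁻¹ ^ 2 * hh) := by
            gcongr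
        _ = 54 * (κ' α)⁻¹ ^ 2 * (P * hh) * (4 * (c.s j / x) + c.m j) := by ring
    · -- near
      push Not at hfar
      have hB1 : 66 * (κ α)⁻¹ ^ 2 * (P * hh) ≤ B j := by
        rw [hB]
        simp only
        rw [if_neg (not_le.2 hfar), if_pos hfar]
        have : 0 ≤ 54 * (κ' α)⁻¹ ^ 2 * (P * hh) * (4 * 0 + c.m j) := by positivity
        linarith
      refine le_trans ?_ hB1
      have ht1 : ‖c.t j z₁‖ ≤ (κ α)⁻¹ * ‖c.H z₁‖ := by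
        have h2 := c.t_re_ge h0 h1 j z₁ hz₁ hne1 (by linarith)
        have h3 := (c.H_re_ge h0 h1 z₁ hz₁ hE₁).2 j
        have h4 : κ α * x ^ (-α) ≤ ‖c.H z₁‖ := (h2.trans h3).trans (Complex.re_le_norm _)
        refine ((c.norm_t_le h0 h1 j z₁ hz₁ hne1).2).trans ?_
        rw [inv_mul_eq_div, le_div_iff₀ hκ]; linarith
      have ht2 : ‖c.t j z₂‖ ≤ (κ α)⁻¹ * ‖c.H z₂‖ := by
        have h2 := c.t_re_ge h0 h1 j z₂ hz₂ hne2 (by linarith)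
        have h3 := (c.H_re_ge h0 h1 z₂ hz₂ hE₂).2 j
        have h4 : κ α * y ^ (-α) ≤ ‖c.H z₂‖ := (h2.trans h3).trans (Complex.re_le_norm _)
        refine ((c.norm_t_le h0 h1 j z₂ hz₂ hne2).2).trans ?_
        rw [inv_mul_eq_div, le_div_iff₀ hκ]; linarith
      have hminv : 1 / c.m j ≤ 64 * x ^ (α - 1) := by
        have h2 : 1 / c.m j = c.s j ^ (α - 1) := by
          rw [m, one_div, ← Real.rpow_neg hs.le]; congr 1; ring
        rw [h2]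
        have h3 : c.s j ^ (α - 1) ≤ (x / 64) ^ (α - 1) :=
          Real.rpow_le_rpow_of_nonpos (by positivity) (by linarith) (by linarith)
        have h4 : (x / 64) ^ (α - 1) = x ^ (α - 1) * 64 ^ (1 - α) := by
          rw [Real.div_rpow hx0.le (by norm_num), div_eq_mul_inv, ← Real.rpow_neg (by norm_num)]
          congr 2
          ring
        have h5 : (64 : ℝ) ^ (1 - α) ≤ 64 := by
          calc (64 : ℝ) ^ (1 - α) ≤ 64 ^ (1 : ℝ) :=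
                Real.rpow_le_rpow_of_exponent_le (by norm_num) (by linarith)
            _ = 64 := Real.rpow_one 64
        rw [h4] at h3
        nlinarith
      calc ‖c.t j z₁ - c.t j z₂‖
          ≤ D * (1 / c.m j + 2 * x ^ (α - 1)) * (‖c.t j z₁‖ * ‖c.t j z₂‖) := hsub
        _ ≤ D * (66 * δ ^ (α - 1)) * (((κ α)⁻¹ * ‖c.H z₁‖) * ((κ α)⁻¹ * ‖c.H z₂‖)) := by
            have : 1 / c.m j + 2 * x ^ (α - 1) ≤ 66 * δ ^ (α - 1) := by linarith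
            gcongr
        _ = 66 * (κ α)⁻¹ ^ 2 * (P * hh) := by rw [hP, hhh]; ring
  -- summation
  have hs1 : Summable (fun j => c.t j z₁) := (c.summable_t h0 h1 z₁ hz₁ hE₁).of_norm
  have hs2 : Summable (fun j => c.t j z₂) := (c.summable_t h0 h1 z₂ hz₂ hE₂).of_norm
  have hsumf : Summable (fun j => 4 * (if 64 * c.s j ≤ ‖z₁ - c.ζ j‖ then
      c.s j / ‖z₁ - c.ζ j‖ else 0) + c.m j) := ((c.far z₁ hz₁).mul_left 4).add c.summable_m
  have hnear := c.near_tsum z₁ (66 * (κ α)⁻¹ ^ 2 * (P * hh)) (by positivity)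
  have hBs : Summable B := (hsumf.mul_left _).add hnear.1
  have hBle : ∑' j, B j ≤ 54 * (κ' α)⁻¹ ^ 2 * (P * hh) * (3 / 8) + 66 * (κ α)⁻¹ ^ 2 * (P * hh) := by
    rw [hB, (hsumf.mul_left _).tsum_add hnear.1, tsum_mul_left]
    have h2 : ∑' j, (4 * (if 64 * c.s j ≤ ‖z₁ - c.ζ j‖ then
      c.s j / ‖z₁ - c.ζ j‖ else 0) + c.m j) ≤ 3 / 8 := by
      rw [((c.far z₁ hz₁).mul_left 4).tsum_add c.summable_m, tsum_mul_left]
      have := c.far_le z₁ hz₁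
      have := c.tsum_m_le
      linarith
    have h3 : 0 ≤ 54 * (κ' α)⁻¹ ^ 2 * (P * hh) := by positivity
    have := mul_le_mul_of_nonneg_left h2 h3
    linarith [hnear.2]
  have hns : Summable (fun j => ‖c.t j z₁ - c.t j z₂‖) :=
    Summable.of_nonneg_of_le (fun j => norm_nonneg _) hterm hBs
  have htail : ‖∑' j, (c.t j z₁ - c.t j z₂)‖ ≤ ∑' j, B j :=
    (norm_tsum_le_tsum_norm hns).trans (hns.tsum_le_tsum hterm hBs)
  have hsplit : c.H z₁ - c.H z₂ =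
      ((1 - z₁)⁻¹ - (1 - z₂)⁻¹) + ∑' j, (c.t j z₁ - c.t j z₂) := by
    rw [H, H, hs1.tsum_sub hs2]; ring
  rw [hsplit]
  refine (norm_add_le _ _).trans ?_
  calc ‖(1 - z₁)⁻¹ - (1 - z₂)⁻¹‖ + ‖∑' j, (c.t j z₁ - c.t j z₂)‖
      ≤ 2 * ((κ' α)⁻¹ ^ 2) * (P * hh) +
        (54 * (κ' α)⁻¹ ^ 2 * (P * hh) * (3 / 8) + 66 * (κ α)⁻¹ ^ 2 * (P * hh)) :=
        add_le_add hfirst (htail.trans hBle)
    _ = _ := by ring

end Config

end Pool.Agent.E8helper81.PK
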