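import Mathlib
import Pool.Agent.E8helper81.PK.Peak

/-! The peak function of a configuration: Hölder continuity, analyticity, peaking. -/

set_option autoImplicit false

namespace Pool.Agent.E8helper81.PK

open Complex Filter Topology Metric Set

variable {α : ℝ} {ι : Type} (c : Config α ι)

namespace Config

open Classical in
/-- The peak function. -/
noncomputable def F (z : ℂ) : ℂ := if z ∈ c.E then 1 else 1 - (1 + c.H z)⁻¹

lemma norm_le_one_add (x : ℂ) (hx : 0 ≤ x.re) : ‖x‖ ≤ ‖1 + x‖ ∧ 1 ≤ ‖1 + x‖ := by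
  have h := norm_add_ge 1 x (by simpa using hx)
  rw [norm_one] at h
  exact ⟨h.2, h.1⟩

variable (h0 : 0 < α) (h1 : α < 1)
include h0 h1

lemma one_sub_F : ∃ K : ℝ, 0 < K ∧ ∀ z : ℂ, ‖z‖ ≤ 1 → ∀ e ∈ c.E, ‖1 - c.F z‖ ≤ K * ‖z - e‖ ^ α := by
  obtain ⟨K, hK, hge⟩ := c.H_ge_dist h0 h1
  refine ⟨K, hK, fun z hz e he => ?_⟩
  by_cases hE : z ∈ c.E
  · rw [F, if_pos hE, sub_self, norm_zero]
    positivity
  · rw [F, if_neg hE, sub_sub_cancel, norm_inv]
    have h2 := hge z hz hE e he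
    have hre := (c.H_re_ge h0 h1 z hz hE).1
    have h3 := norm_le_one_add (c.H z) (by linarith)
    have hpos : 0 < ‖1 + c.H z‖ := by linarith [h3.2]
    rw [inv_le_iff_one_le_mul₀ hpos]
    refine h2.trans ?_
    gcongr
    exact h3.1

lemma F_holder : ∃ K : ℝ, 0 < K ∧ ∀ x y : ℂ, ‖x‖ ≤ 1 → ‖y‖ ≤ 1 →
    ‖c.F x - c.F y‖ ≤ K * ‖x - y‖ ^ α := by
  obtain ⟨K, hK, hK1⟩ := c.one_sub_F h0 h1
  obtain ⟨L, hL, hL1⟩ := c.H_sub_le h0 h1
  refine ⟨5 * K + L, by positivity, fun x y hx hy => ?_⟩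
  have hxy0 : 0 ≤ ‖x - y‖ := norm_nonneg _
  have hα0 : 0 ≤ ‖x - y‖ ^ α := by positivity
  by_cases hxE : x ∈ c.E
  · have h2 := hK1 y hy x hxE
    have h3 : c.F x = 1 := by rw [F, if_pos hxE]
    rw [h3]
    refine h2.trans ?_
    rw [norm_sub_rev y x]
    nlinarith
  by_cases hyE : y ∈ c.E
  · have h2 := hK1 x hx y hyE
    have h3 : c.F y = 1 := by rw [F, if_pos hyE]
    rw [h3, norm_sub_rev]
    refine h2.trans ?_
    nlinarith
  obtain ⟨e, he, hed⟩ := c.isCompact_E.exists_infDist_eq_dist ⟨1, c.one_mem_E⟩ x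
  set δ := Metric.infDist x c.E with hδ
  have hδ0 : 0 < δ := (c.isCompact_E.isClosed.notMem_iff_infDist_pos ⟨1, c.one_mem_E⟩).1 hxE
  have hδe : δ = ‖x - e‖ := by rw [hed, dist_eq_norm]
  have hδle : ∀ e' ∈ c.E, δ ≤ ‖x - e'‖ := fun e' he' => by
    rw [← dist_eq_norm]; exact Metric.infDist_le_dist_of_mem he'
  by_cases hclose : ‖x - y‖ ≤ δ / 2
  · have h2 := hL1 x y hx hy hxE hyE δ hδ0 hδle hclose
    have hrex := (c.H_re_ge h0 h1 x hx hxE).1
    have hrey := (c.H_re_ge h0 h1 y hy hyE).1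
    have h3 := norm_le_one_add (c.H x) (by linarith)
    have h4 := norm_le_one_add (c.H y) (by linarith)
    have hpx : 0 < ‖1 + c.H x‖ := by linarith [h3.2]
    have hpy : 0 < ‖1 + c.H y‖ := by linarith [h4.2]
    have hnx : 1 + c.H x ≠ 0 := norm_pos_iff.1 hpx
    have hny : 1 + c.H y ≠ 0 := norm_pos_iff.1 hpy
    have h5 : c.F x - c.F y = (c.H x - c.H y) / ((1 + c.H x) * (1 + c.H y)) := by
      rw [F, F, if_neg hxE, if_neg hyE]
      field_simp
      ring
    rw [h5, norm_div, norm_mul, div_le_iff₀ (by positivity)]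
    have h6 : δ ^ (α - 1) * ‖x - y‖ ≤ ‖x - y‖ ^ α := by
      rcases eq_or_lt_of_le hxy0 with h | h
      · rw [← h, mul_zero]
        rw [Real.zero_rpow h0.ne']
      · have h7 : δ ^ (α - 1) ≤ ‖x - y‖ ^ (α - 1) :=
          Real.rpow_le_rpow_of_nonpos h (by linarith) (by linarith)
        calc δ ^ (α - 1) * ‖x - y‖ ≤ ‖x - y‖ ^ (α - 1) * ‖x - y‖ := by gcongr
          _ = ‖x - y‖ ^ α := by
              conv_lhs => rw [← Real.rpow_one ‖x - y‖, ← Real.rpow_mul hxy0, one_mul,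
                ← Real.rpow_add h]
              congr 1; ring
    calc ‖c.H x - c.H y‖ ≤ L * (δ ^ (α - 1) * ‖x - y‖ * (‖c.H x‖ * ‖c.H y‖)) := h2
      _ ≤ L * (‖x - y‖ ^ α * (‖1 + c.H x‖ * ‖1 + c.H y‖)) := by
          have := h3.1
          have := h4.1
          gcongr
      _ = L * ‖x - y‖ ^ α * (‖1 + c.H x‖ * ‖1 + c.H y‖) := by ring
      _ ≤ (5 * K + L) * ‖x - y‖ ^ α * (‖1 + c.H x‖ * ‖1 + c.H y‖) := by
          gcongr
          linarith
  · push Not at hclose
    have h2 := hK1 x hx e he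
    have h3 := hK1 y hy e he
    have h4 : ‖x - e‖ ≤ 2 * ‖x - y‖ := by rw [← hδe]; linarith
    have h5 : ‖y - e‖ ≤ 3 * ‖x - y‖ := by
      have : y - e = (x - e) - (x - y) := by ring
      rw [this]
      refine (norm_sub_le _ _).trans ?_
      linarith
    have h6 : ‖x - e‖ ^ α ≤ 2 * ‖x - y‖ ^ α := by
      calc ‖x - e‖ ^ α ≤ (2 * ‖x - y‖) ^ α := Real.rpow_le_rpow (norm_nonneg _) h4 h0.le
        _ = 2 ^ α * ‖x - y‖ ^ α := Real.mul_rpow (by norm_num) hxy0
        _ ≤ 2 * ‖x - y‖ ^ α := by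
            gcongr
            calc (2 : ℝ) ^ α ≤ 2 ^ (1 : ℝ) :=
                  Real.rpow_le_rpow_of_exponent_le (by norm_num) h1.le
              _ = 2 := Real.rpow_one 2
    have h7 : ‖y - e‖ ^ α ≤ 3 * ‖x - y‖ ^ α := by
      calc ‖y - e‖ ^ α ≤ (3 * ‖x - y‖) ^ α := Real.rpow_le_rpow (norm_nonneg _) h5 h0.le
        _ = 3 ^ α * ‖x - y‖ ^ α := Real.mul_rpow (by norm_num) hxy0
        _ ≤ 3 * ‖x - y‖ ^ α := by
            gcongr
            calc (3 : ℝ) ^ α ≤ 3 ^ (1 : ℝ) :=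
                  Real.rpow_le_rpow_of_exponent_le (by norm_num) h1.le
              _ = 3 := Real.rpow_one 3
    have h8 : c.F x - c.F y = (1 - c.F y) - (1 - c.F x) := by ring
    rw [h8]
    refine (norm_sub_le _ _).trans ?_
    have h9 : K * ‖y - e‖ ^ α ≤ K * (3 * ‖x - y‖ ^ α) := by gcongr
    have h10 : K * ‖x - e‖ ^ α ≤ K * (2 * ‖x - y‖ ^ α) := by gcongr
    nlinarith

omit h0 h1 in
lemma not_mem_E_of_lt {z : ℂ} (hz : ‖z‖ < 1) : z ∉ c.E := by
  intro h
  have := c.E_sub h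
  rw [mem_sphere_zero_iff_norm] at this
  linarith

lemma H_differentiableOn : DifferentiableOn ℂ c.H (ball (0 : ℂ) 1) := by
  intro z hz
  rw [mem_ball_zero_iff] at hz
  obtain ⟨r, hzr, hr1⟩ := exists_between hz
  have hU : IsOpen (ball (0 : ℂ) r) := isOpen_ball
  have hzU : z ∈ ball (0 : ℂ) r := by rw [mem_ball_zero_iff]; exact hzr
  have h2 : DifferentiableOn ℂ (fun w => ∑' j, c.t j w) (ball (0 : ℂ) r) := by
    refine differentiableOn_tsum_of_summable_norm (c.summable_m.mul_left (1 - r)⁻¹) ?_ hU ?_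
    · intro j x hx
      rw [mem_ball_zero_iff] at hx
      have hx1 : ‖x‖ ≤ 1 := by linarith
      have hne : x ≠ c.ζ j := c.mem_ne (c.not_mem_E_of_lt (by linarith)) j
      have hwre : 0 < (c.w j x).re := by
        have h1 : ((starRingEnd ℂ) (c.ζ j) * x).re ≤ ‖x‖ := by
          refine (Complex.re_le_norm _).trans ?_
          rw [norm_mul, RCLike.norm_conj, c.norm_ζ, one_mul]
        rw [w, Complex.sub_re, Complex.one_re]
        linarith
      have hd : DifferentiableAt ℂ (fun x => c.w j x) x := by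
        unfold w; fun_prop
      have hslit : c.w j x ∈ Complex.slitPlane := Or.inl hwre
      have hd2 : DifferentiableAt ℂ (fun x => blk α (c.m j) (c.w j x)) x := by
        unfold blk
        exact (hd.div_const _).add (hd.cpow_const hslit)
      have hb : blk α (c.m j) (c.w j x) ≠ 0 :=
        blk_ne_zero α _ h0 h1 (c.m_pos j) _ (c.w_ne j x hne) (c.w_re j x hx1)
      exact (hd2.inv hb).differentiableWithinAt
    · intro j x hx
      rw [mem_ball_zero_iff] at hx
      have hx1 : ‖x‖ ≤ 1 := by linarith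
      have hne : x ≠ c.ζ j := c.mem_ne (c.not_mem_E_of_lt (by linarith)) j
      refine ((c.norm_t_le h0 h1 j x hx1 hne).1).trans ?_
      have h3 : 1 - r ≤ ‖x - c.ζ j‖ := by
        have := norm_sub_norm_le (c.ζ j) x
        rw [c.norm_ζ, norm_sub_rev] at this
        linarith
      rw [div_eq_mul_inv, mul_comm]
      have hm := c.m_pos j
      gcongr
  have h3 : DifferentiableAt ℂ (fun w => ∑' j, c.t j w) z :=
    (h2 z hzU).differentiableAt (hU.mem_nhds hzU)
  have h4 : DifferentiableAt ℂ (fun w : ℂ => (1 - w)⁻¹) z := by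
    refine DifferentiableAt.inv (by fun_prop) ?_
    intro h
    have : z = 1 := (sub_eq_zero.1 h).symm
    rw [this, norm_one] at hz
    linarith
  exact (h4.add h3).differentiableWithinAt

lemma F_differentiableOn : DifferentiableOn ℂ c.F (ball (0 : ℂ) 1) := by
  have h2 : DifferentiableOn ℂ (fun z => 1 - (1 + c.H z)⁻¹) (ball (0 : ℂ) 1) := by
    refine (differentiableOn_const _).sub ?_
    refine ((differentiableOn_const _).add (c.H_differentiableOn h0 h1)).inv ?_
    intro z hz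
    rw [mem_ball_zero_iff] at hz
    have hre := (c.H_re_ge h0 h1 z hz.le (c.not_mem_E_of_lt hz)).1
    have h3 := norm_le_one_add (c.H z) (by linarith)
    have h4 : 1 + c.H z ≠ 0 := norm_pos_iff.1 (by linarith [h3.2])
    exact h4
  refine h2.congr fun z hz => ?_
  rw [mem_ball_zero_iff] at hz
  rw [F, if_neg (c.not_mem_E_of_lt hz)]

lemma F_continuousOn : ContinuousOn c.F (closedBall (0 : ℂ) 1) := by
  obtain ⟨K, hK, h⟩ := c.F_holder h0 h1
  intro x hx
  rw [mem_closedBall_zero_iff] at hx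
  rw [ContinuousWithinAt, tendsto_iff_norm_sub_tendsto_zero]
  have h2 : Tendsto (fun y : ℂ => K * ‖y - x‖ ^ α) (𝓝[closedBall 0 1] x) (𝓝 0) := by
    have h3 : Tendsto (fun y : ℂ => K * ‖y - x‖ ^ α) (𝓝 x) (𝓝 (K * ‖x - x‖ ^ α)) := by
      refine Tendsto.const_mul _ ?_
      refine (Continuous.tendsto ?_ x)
      exact (continuous_norm.comp (continuous_id.sub continuous_const)).rpow_const
        (fun _ => Or.inr h0.le)
    rw [sub_self, norm_zero, Real.zero_rpow h0.ne', mul_zero] at h3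
    exact h3.mono_left nhdsWithin_le_nhds
  refine squeeze_zero' (Eventually.of_forall fun y => norm_nonneg _) ?_ h2
  filter_upwards [self_mem_nhdsWithin] with y hy
  rw [mem_closedBall_zero_iff] at hy
  exact h y x hy hx

omit h0 h1 in
lemma F_eq_one (x : ℂ) (hx : x ∈ c.E) : c.F x = 1 := by rw [F, if_pos hx]

lemma norm_F_lt (x : ℂ) (hx : ‖x‖ ≤ 1) (hE : x ∉ c.E) : ‖c.F x‖ < 1 := by
  have hre := (c.H_re_ge h0 h1 x hx hE).1
  have h3 := norm_le_one_add (c.H x) (by linarith)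
  have hp : 0 < ‖1 + c.H x‖ := by linarith [h3.2]
  have hn : 1 + c.H x ≠ 0 := norm_pos_iff.1 hp
  have h5 : c.F x = c.H x / (1 + c.H x) := by
    rw [F, if_neg hE]
    field_simp
    ring
  rw [h5, norm_div, div_lt_one hp]
  refine lt_of_pow_lt_pow_left₀ 2 hp.le ?_
  rw [← Complex.normSq_eq_norm_sq, ← Complex.normSq_eq_norm_sq, Complex.normSq_add]
  simp only [map_one, one_mul, Complex.conj_re]
  linarith

end Config

end Pool.Agent.E8helper81.PK
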