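import Mathlib
import Pool.Agent.E8helper81.PK.Exist
import Pool.Agent.E8helper81.PK.PeakFun

/-! The two cases of the theorem. -/

set_option autoImplicit false

namespace Pool.Agent.E8helper81.PK

open Filter Topology Metric Set

/-- the set of a configuration is a peak set -/
lemma Config.mem_peakSets {α : ℝ} {ι : Type} (c : Config α ι) (h0 : 0 < α) (h1 : α < 1) :
    c.E ∈ PeakSets α := by
  obtain ⟨K, hK, h⟩ := c.F_holder h0 h1
  refine ⟨c.isCompact_E.isClosed, c.E_sub, c.F, ⟨c.F_differentiableOn h0 h1,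
    c.F_continuousOn h0 h1, K, ?_⟩, fun x hx => c.F_eq_one x hx, ?_⟩
  · intro x hx y hy
    rw [mem_sphere_zero_iff_norm] at hx hy
    exact h x y hx.le hy.le
  · intro x hx
    have h2 := hx.1
    rw [mem_sphere_zero_iff_norm] at h2
    exact c.norm_F_lt h0 h1 x h2.le hx.2

lemma Config.countable_E {α : ℝ} {ι : Type} [Countable ι] (c : Config α ι) :
    c.E.Countable := (countable_range _).insert _

lemma Config.finite_E {α : ℝ} {ι : Type} (c : Config α ι) (ε : ℝ) (hε : 0 < ε) :
    (c.E \ ball 1 ε).Finite := by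
  have h2 := c.lim
  rw [Metric.tendsto_nhds] at h2
  have h3 := h2 ε hε
  rw [Filter.eventually_cofinite] at h3
  refine (h3.image c.ζ).subset ?_
  rintro x ⟨hx, hx2⟩
  rcases hx with rfl | ⟨j, rfl⟩
  · exact absurd (mem_ball_self hε) hx2
  · exact ⟨j, hx2, rfl⟩

/-- The case `α < 1`. -/
lemma main_lt {α : ℝ} (h0 : 0 < α) (h1 : α < 1) :
    ∃ E : Set ℂ, E ∈ PeakSets α ∧ E ∉ ZeroSets α ∧ E.Countable ∧
      ∀ ε : ℝ, 0 < ε → (E \ ball 1 ε).Finite := by
  obtain ⟨b, hb⟩ := exists_blocks h0 h1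
  exact ⟨b.config.E, b.config.mem_peakSets h0 h1, b.not_zeroSet h0 hb, b.config.countable_E,
    b.config.finite_E⟩

/-- The point `1` is a peak set for `A_1`. -/
lemma singleton_mem_peakSets : ({1} : Set ℂ) ∈ PeakSets 1 := by
  refine ⟨isClosed_singleton, ?_, fun z => (1 + z) / 2, ⟨?_, ?_, 1, ?_⟩, ?_, ?_⟩
  · intro x hx
    rw [mem_singleton_iff] at hx
    rw [hx]; simp
  · fun_prop
  · fun_prop
  · intro x _ y _
    have h2 : (1 + x) / 2 - (1 + y) / 2 = (x - y) / 2 := by ring
    rw [h2, Real.rpow_one, norm_div, one_mul]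
    have h3 : ‖(2 : ℂ)‖ = 2 := by simp
    rw [h3]
    have := norm_nonneg (x - y)
    linarith
  · intro x hx
    rw [mem_singleton_iff] at hx
    rw [hx]; norm_num
  · intro x hx
    have h2 : ‖x‖ = 1 := by simpa using hx.1
    have h3 : x ≠ 1 := fun h => hx.2 (by rw [h]; rfl)
    have h4 : ‖(2 : ℂ)‖ = 2 := by simp
    rw [norm_div, h4, div_lt_one (by norm_num)]
    have h5 : ‖(1 : ℂ) + x‖ ≤ ‖(1 : ℂ)‖ + ‖x‖ := norm_add_le _ _
    rw [h2, norm_one] at h5
    refine lt_of_le_of_ne (by linarith) fun h6 => ?_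
    -- equality in the triangle inequality
    have h7 : ‖(1 : ℂ) + x‖ ^ 2 = 4 := by rw [h6]; norm_num
    have h8 : ‖x‖ ^ 2 = 1 := by rw [h2]; norm_num
    rw [← Complex.normSq_eq_norm_sq, Complex.normSq_apply] at h7 h8
    simp only [Complex.add_re, Complex.one_re, Complex.add_im, Complex.one_im] at h7
    have h9 : x.re = 1 := by nlinarith
    have h10 : x.im = 0 := by
      rw [h9] at h8
      have : x.im * x.im = 0 := by linarith
      simpa using this
    exact h3 (Complex.ext (by simpa using h9) (by simpa using h10))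

/-- The point `1` is not a zero set for `G_1`. -/
lemma singleton_not_mem_zeroSets : ({1} : Set ℂ) ∉ ZeroSets 1 := by
  refine not_zeroSet one_pos fun A => ?_
  have hpi := Real.pi_pos
  obtain ⟨η, hηA⟩ : ∃ η : ℝ, η = Real.exp (-|A|) := ⟨_, rfl⟩
  have hη : 0 < η := by rw [hηA]; exact Real.exp_pos _
  have hη1 : η ≤ 1 := by
    rw [hηA]
    exact Real.exp_le_one_iff.2 (by simp)
  refine ⟨fun θ => (θ + η)⁻¹, η, hη, ?_, ?_, ?_⟩
  · refine ContinuousOn.intervalIntegrable ?_
    rw [uIcc_of_le (by positivity)]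
    refine ContinuousOn.inv₀ (by fun_prop) fun θ hθ => ?_
    have := hθ.1
    positivity
  · rw [intervalIntegral.integral_comp_add_right (fun x => x⁻¹) η,
      integral_inv_of_pos (by linarith) (by positivity), zero_add]
    have h2 : Real.exp |A| ≤ (2 * Real.pi + η) / η := by
      rw [le_div_iff₀ hη, hηA, ← Real.exp_add, add_neg_cancel, Real.exp_zero]
      have := Real.exp_pos (-|A|)
      have := Real.pi_gt_three
      linarith
    have h3 := Real.log_le_log (Real.exp_pos _) h2
    rw [Real.log_exp] at h3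
    exact (le_abs_self A).trans h3
  · intro r hr1 hr2 θ hθ
    right
    refine ⟨1, rfl, ?_⟩
    have hr0 : 0 < r := by linarith
    have hpos : 0 < ‖circleMap 0 r θ - 1‖ := by
      rw [norm_pos_iff, sub_ne_zero]
      intro h
      have h5 := congrArg norm h
      rw [norm_circleMap_zero, abs_of_pos hr0, norm_one] at h5
      linarith
    have h1 : ‖circleMap 0 r θ - 1‖ ≤ θ + η := by
      have h2 : circleMap 0 r θ - 1 = ((r - 1 : ℝ) : ℂ) * circleMap 0 1 θ +
          (circleMap 0 1 θ - circleMap 0 1 0) := by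
        simp only [circleMap_zero]
        push_cast
        simp
        ring
      have h3 : ‖((r - 1 : ℝ) : ℂ) * circleMap 0 1 θ‖ = 1 - r := by
        rw [norm_mul, norm_circleMap_zero, abs_one, mul_one, Complex.norm_real,
          Real.norm_eq_abs, abs_sub_comm, abs_of_pos (by linarith)]
      have h4 : ‖circleMap 0 1 θ - circleMap 0 1 0‖ ≤ θ := by
        have h5 := (lipschitzWith_circleMap 0 1).dist_le_mul θ 0
        rw [dist_eq_norm, Real.dist_eq, sub_zero, abs_of_nonneg hθ.1] at h5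
        simpa using h5
      rw [h2]
      refine (norm_add_le _ _).trans ?_
      rw [h3]
      linarith
    rw [Real.rpow_neg_one]
    exact inv_anti₀ hpos h1

/-- The case `α = 1`. -/
lemma main_one : ∃ E : Set ℂ, E ∈ PeakSets 1 ∧ E ∉ ZeroSets 1 ∧ E.Countable ∧
      ∀ ε : ℝ, 0 < ε → (E \ ball 1 ε).Finite :=
  ⟨{1}, singleton_mem_peakSets, singleton_not_mem_zeroSets, countable_singleton 1,
    fun _ _ => (finite_singleton 1).sdiff⟩

end Pool.Agent.E8helper81.PK
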